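import Mathlib

/-!
# Colourings of pairs with few alternations: definitions, blocks

`c x y`, `x < y`, is the colour of the pair `{x, y}`. `Few c t U`: for every `y ∈ U` the colour
`c y z` changes at most `t` times when `z > y` runs through `U`.
-/

namespace Pool.Agent.Q274.IV

open Finset

variable {α : Type*} [LinearOrder α] {κ : Type*}

/-- All pairs of elements of `A` have colour `b`. -/
def Hom (c : α → α → κ) (b : κ) (A : Finset α) : Prop :=
  ∀ x ∈ A, ∀ y ∈ A, x < y → c x y = b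

open Classical in
/-- The largest size of a subset of `W` with all pairs of colour `b`. -/
noncomputable def hn (c : α → α → κ) (b : κ) (W : Finset α) : ℕ :=
  (W.powerset.filter (Hom c b)).sup card

theorem le_hn {c : α → α → κ} {b : κ} {A W : Finset α} (h : A ⊆ W) (hA : Hom c b A) :
    A.card ≤ hn c b W := by
  classical
  rw [hn]
  exact Finset.le_sup (f := card) (mem_filter.2 ⟨mem_powerset.2 h, hA⟩)

theorem exists_hn (c : α → α → κ) (b : κ) (W : Finset α) :
    ∃ A ⊆ W, Hom c b A ∧ A.card = hn c b W := by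
  classical
  have hne : (W.powerset.filter (Hom c b)).Nonempty :=
    ⟨∅, mem_filter.2 ⟨mem_powerset.2 (empty_subset _), by intro x hx; simp at hx⟩⟩
  obtain ⟨A, hA, h⟩ := Finset.exists_mem_eq_sup _ hne card
  obtain ⟨h1, h2⟩ := mem_filter.1 hA
  exact ⟨A, mem_powerset.1 h1, h2, h.symm⟩

theorem hn_mono {c : α → α → κ} {b : κ} {W W' : Finset α} (h : W ⊆ W') : hn c b W ≤ hn c b W' := by
  obtain ⟨A, h1, h2, h3⟩ := exists_hn c b W
  rw [← h3]
  exact le_hn (h1.trans h) h2

theorem one_le_hn {c : α → α → κ} {b : κ} {W : Finset α} (h : W.Nonempty) : 1 ≤ hn c b W := by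
  obtain ⟨x, hx⟩ := h
  have : ({x} : Finset α).card ≤ hn c b W := by
    apply le_hn
    · simpa using hx
    · intro y hy z hz hyz
      rw [mem_singleton] at hy hz
      rw [hy, hz] at hyz
      exact absurd hyz (lt_irrefl _)
  simpa using this

/-- For every `y ∈ U` the colour `c y z` changes at most `t` times when `z > y` runs through `U`:
there are at most `t` elements such that the colour is the same at the two ends of every interval
without one of them. -/
def Few (c : α → α → κ) (t : ℕ) (U : Finset α) : Prop :=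
  ∀ y ∈ U, ∃ C : Finset α, C.card ≤ t ∧ ∀ z ∈ U, ∀ z' ∈ U, y < z → z < z' →
    (∀ e ∈ C, ¬ (z ≤ e ∧ e ≤ z')) → c y z = c y z'

theorem Few.mono {c : α → α → κ} {t : ℕ} {U U' : Finset α} (h : Few c t U) (hU : U' ⊆ U) :
    Few c t U' := by
  intro y hy
  obtain ⟨C, h1, h2⟩ := h y (hU hy)
  exact ⟨C, h1, fun z hz z' hz' => h2 z (hU hz) z' (hU hz')⟩

theorem blocks (W : Finset α) (M ℓ : ℕ) (h : M * ℓ ≤ W.card) : ∃ B : ℕ → Finset α,
    (∀ i < M, B i ⊆ W ∧ (B i).card = ℓ) ∧
    ∀ i j, i < j → j < M → ∀ x ∈ B i, ∀ y ∈ B j, x < y := by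
  classical
  set e := W.orderEmbOfFin rfl with he
  refine ⟨fun i => ((Finset.univ : Finset (Fin W.card)).filter
    (fun k => i * ℓ ≤ k.1 ∧ k.1 < (i + 1) * ℓ)).map e.toEmbedding, ?_, ?_⟩
  · intro i hi
    have hle : (i + 1) * ℓ ≤ W.card := (Nat.mul_le_mul_right ℓ hi).trans h
    refine ⟨?_, ?_⟩
    · intro x hx
      rw [mem_map] at hx
      obtain ⟨k, -, rfl⟩ := hx
      exact W.orderEmbOfFin_mem rfl k
    · rw [card_map]
      have h1 : ((Finset.univ : Finset (Fin W.card)).filter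
          (fun k => i * ℓ ≤ k.1 ∧ k.1 < (i + 1) * ℓ)) =
          (Ico (i * ℓ) ((i + 1) * ℓ)).attachFin (fun m hm => lt_of_lt_of_le (mem_Ico.1 hm).2 hle) := by
        ext k
        simp
      rw [h1, card_attachFin, Nat.card_Ico, add_mul, one_mul]
      omega
  · intro i j hij hj x hx y hy
    rw [mem_map] at hx hy
    obtain ⟨k, hk, rfl⟩ := hx
    obtain ⟨l, hl, rfl⟩ := hy
    rw [mem_filter] at hk hl
    have h1 : (i + 1) * ℓ ≤ j * ℓ := Nat.mul_le_mul_right ℓ hij
    have h2 : k < l := by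
      rw [Fin.lt_def]
      omega
    exact (OrderEmbedding.lt_iff_lt e).2 h2

theorem bad_card {c : α → α → κ} {t : ℕ} {U : Finset α} (hF : Few c t U) {B : ℕ → Finset α}
    {M : ℕ} (hB : ∀ i < M, B i ⊆ U) (hlt : ∀ i j, i < j → j < M → ∀ x ∈ B i, ∀ y ∈ B j, x < y)
    {i : ℕ} {y : α} (hy : y ∈ B i) (hyU : y ∈ U) (S : Finset ℕ)
    (hS : ∀ j ∈ S, i < j ∧ j < M ∧ ∃ z ∈ B j, ∃ z' ∈ B j, z < z' ∧ c y z ≠ c y z') :
    S.card ≤ t := by
  classical
  obtain ⟨C, hC, h⟩ := hF y hyU
  have key : ∀ j ∈ S, ∃ e ∈ C, ∃ z ∈ B j, ∃ z' ∈ B j, z ≤ e ∧ e ≤ z' := by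
    intro j hj
    obtain ⟨h1, h2, z, hz, z', hz', h3, h4⟩ := hS j hj
    by_contra hcon
    push Not at hcon
    refine h4 (h z (hB j h2 hz) z' (hB j h2 hz') (hlt i j h1 h2 y hy z hz) h3 ?_)
    rintro e he ⟨g1, g2⟩
    exact absurd g2 (not_le.2 (hcon e he z hz z' hz' g1))
  have : Nonempty α := ⟨y⟩
  choose! f hf z hz z' hz' h1 h2 using key
  refine (card_le_card_of_injOn f hf ?_).trans hC
  have aux : ∀ j ∈ S, ∀ l ∈ S, j < l → f j ≠ f l := by
    intro j hj l hl hjl he
    have g1 : z' j < z l := hlt j l hjl (hS l hl).2.1 _ (hz' j hj) _ (hz l hl)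
    have g2 := h2 j hj
    have g3 := h1 l hl
    rw [he] at g2
    exact absurd (lt_of_le_of_lt g2 g1) (not_lt.2 g3)
  intro j hj l hl he
  rcases lt_trichotomy j l with h3 | h3 | h3
  · exact absurd he (aux j hj l hl h3)
  · exact h3
  · exact absurd he.symm (aux l hl j hj h3)

theorem greedy (R : ℕ → ℕ → Prop) (D : ℕ) : ∀ s : ℕ, ∀ I : Finset ℕ,
    (∀ i ∈ I, ∀ S ⊆ I, (∀ j ∈ S, i < j ∧ R i j) → S.card ≤ D) → (D + 1) * s ≤ I.card →
    ∃ J ⊆ I, J.card = s ∧ ∀ i ∈ J, ∀ j ∈ J, i < j → ¬ R i j := by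
  classical
  intro s
  induction s with
  | zero =>
    intro I _ _
    exact ⟨∅, empty_subset _, rfl, by intro i hi; simp at hi⟩
  | succ s ih =>
    intro I hI hc
    have hne : I.Nonempty := by
      rw [← card_pos]
      have : 0 < (D + 1) * (s + 1) := by positivity
      omega
    set i := I.min' hne with hi
    have hiI : i ∈ I := I.min'_mem hne
    set I' := I.filter (fun j => i < j ∧ ¬ R i j) with hI'
    have h1 : (I.filter (fun j => i < j ∧ R i j)).card ≤ D :=
      hI i hiI _ (filter_subset _ _) (fun j hj => (mem_filter.1 hj).2)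
    have h2 : I ⊆ insert i (I.filter (fun j => i < j ∧ R i j) ∪ I') := by
      intro j hj
      rw [mem_insert, mem_union, hI', mem_filter, mem_filter]
      rcases (I.min'_le j hj).lt_or_eq with h3 | h3
      · by_cases h4 : R i j
        · exact Or.inr (Or.inl ⟨hj, h3, h4⟩)
        · exact Or.inr (Or.inr ⟨hj, h3, h4⟩)
      · exact Or.inl h3.symm
    have h3 := card_le_card h2
    have h4 := card_insert_le i (I.filter (fun j => i < j ∧ R i j) ∪ I')
    have h5 := card_union_le (I.filter (fun j => i < j ∧ R i j)) I'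
    have h6 : (D + 1) * s ≤ I'.card := by
      have : (D + 1) * (s + 1) = (D + 1) * s + (D + 1) := by ring
      omega
    obtain ⟨J, hJ1, hJ2, hJ3⟩ := ih I' (fun j hj S hS h =>
      hI j ((mem_filter.1 hj).1) S (hS.trans (filter_subset _ _)) h) h6
    have hiJ : i ∉ J := by
      intro h
      have := (mem_filter.1 (hJ1 h)).2.1
      exact absurd this (lt_irrefl _)
    refine ⟨insert i J, ?_, ?_, ?_⟩
    · intro j hj
      rw [mem_insert] at hj
      rcases hj with rfl | hj
      · exact hiI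
      · exact (mem_filter.1 (hJ1 hj)).1
    · rw [card_insert_of_notMem hiJ, hJ2]
    · intro a ha b hb hab
      rw [mem_insert] at ha hb
      rcases ha with rfl | ha
      · rcases hb with rfl | hb
        · exact absurd hab (lt_irrefl _)
        · exact (mem_filter.1 (hJ1 hb)).2.2
      · rcases hb with rfl | hb
        · have := (mem_filter.1 (hJ1 ha)).2.1
          exact absurd (lt_trans hab this) (lt_irrefl _)
        · exact hJ3 a ha b hb hab

/-- Blocks `Z i` and large subsets `Y i` of them, such that the elements of `Y i` do not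
distinguish the elements of later blocks. -/
theorem spread {c : α → α → κ} {t : ℕ} {U : Finset α} (hF : Few c t U) (s ℓ : ℕ) (hℓ : 1 ≤ ℓ)
    {W : Finset α} (hW : W ⊆ U) (h : (2 * s * t + 1) * s * ℓ ≤ W.card) :
    ∃ (Z Y : ℕ → Finset α) (I : Finset ℕ), I.card = s ∧ (∀ i ∈ I, Z i ⊆ W) ∧
      (∀ i ∈ I, Y i ⊆ Z i ∧ ℓ ≤ 2 * (Y i).card) ∧
      (∀ i ∈ I, ∀ j ∈ I, i < j → ∀ x ∈ Z i, ∀ y ∈ Z j, x < y) ∧
      (∀ i ∈ I, ∀ j ∈ I, i < j → ∀ y ∈ Y i, ∀ z ∈ Z j, ∀ z' ∈ Z j, c y z = c y z') := by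
  classical
  set M := (2 * s * t + 1) * s with hM
  obtain ⟨B, hB, hlt⟩ := blocks W M ℓ h
  set bad : α → ℕ → Prop := fun y j => ∃ z ∈ B j, ∃ z' ∈ B j, z < z' ∧ c y z ≠ c y z' with hbad
  set R : ℕ → ℕ → Prop := fun i j => ℓ < 2 * s * ((B i).filter (fun y => bad y j)).card with hR
  have hout : ∀ i ∈ range M, ∀ S ⊆ range M, (∀ j ∈ S, i < j ∧ R i j) → S.card ≤ 2 * s * t := by
    intro i hi S hS hSR
    have hiM := mem_range.1 hi
    have h1 : ∑ j ∈ S, ((B i).filter (fun y => bad y j)).card =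
        ∑ y ∈ B i, (S.filter (fun j => bad y j)).card := by
      simp only [card_filter]
      exact sum_comm
    have h2 : ∑ y ∈ B i, (S.filter (fun j => bad y j)).card ≤ ∑ y ∈ B i, t := by
      refine sum_le_sum (fun y hy => ?_)
      refine bad_card hF (fun k hk => (hB k hk).1.trans hW) hlt hy (hW ((hB i hiM).1 hy)) _ ?_
      intro j hj
      rw [mem_filter] at hj
      exact ⟨(hSR j hj.1).1, mem_range.1 (hS hj.1), hj.2⟩
    rw [sum_const, smul_eq_mul, (hB i hiM).2] at h2
    have h3 : S.card * ℓ ≤ 2 * s * ∑ j ∈ S, ((B i).filter (fun y => bad y j)).card := by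
      rw [mul_sum, ← smul_eq_mul, ← sum_const]
      exact sum_le_sum (fun j hj => (hSR j hj).2.le)
    rw [h1] at h3
    have h4 : S.card * ℓ ≤ (2 * s * t) * ℓ := by
      calc S.card * ℓ ≤ 2 * s * ∑ y ∈ B i, (S.filter (fun j => bad y j)).card := h3
        _ ≤ 2 * s * (ℓ * t) := Nat.mul_le_mul_left _ h2
        _ = (2 * s * t) * ℓ := by ring
    exact Nat.le_of_mul_le_mul_right h4 hℓ
  obtain ⟨I, hI1, hI2, hI3⟩ := greedy R (2 * s * t) s (range M) hout (by rw [card_range])
  refine ⟨B, fun i => (B i).filter (fun y => ∀ j ∈ I, i < j → ¬ bad y j), I, hI2, ?_, ?_, ?_, ?_⟩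
  · intro i hi
    exact (hB i (mem_range.1 (hI1 hi))).1
  · intro i hi
    have hiM := mem_range.1 (hI1 hi)
    refine ⟨filter_subset _ _, ?_⟩
    have hs : 1 ≤ s := by
      rw [← hI2]
      exact card_pos.2 ⟨i, hi⟩
    set X := (B i).filter (fun y => ¬ ∀ j ∈ I, i < j → ¬ bad y j) with hX
    have h1 : ((B i).filter (fun y => ∀ j ∈ I, i < j → ¬ bad y j)).card + X.card = ℓ := by
      rw [hX, card_filter_add_card_filter_not, (hB i hiM).2]
    have h2 : X ⊆ (I.filter (fun j => i < j)).biUnion (fun j => (B i).filter (fun y => bad y j)) := by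
      intro y hy
      rw [hX, mem_filter] at hy
      obtain ⟨h3, h4⟩ := hy
      push Not at h4
      obtain ⟨j, hj, hij, h5⟩ := h4
      rw [mem_biUnion]
      exact ⟨j, mem_filter.2 ⟨hj, hij⟩, mem_filter.2 ⟨h3, h5⟩⟩
    have h3 : 2 * s * X.card ≤ s * ℓ := by
      calc 2 * s * X.card ≤ 2 * s * ∑ j ∈ I.filter (fun j => i < j),
            ((B i).filter (fun y => bad y j)).card :=
            Nat.mul_le_mul_left _ ((card_le_card h2).trans card_biUnion_le)
        _ = ∑ j ∈ I.filter (fun j => i < j), 2 * s * ((B i).filter (fun y => bad y j)).card := by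
            rw [mul_sum]
        _ ≤ ∑ j ∈ I.filter (fun j => i < j), ℓ := by
            refine sum_le_sum (fun j hj => ?_)
            rw [mem_filter] at hj
            exact not_lt.1 (hI3 i hi j hj.1 hj.2)
        _ ≤ s * ℓ := by
            rw [sum_const, smul_eq_mul, ← hI2]
            exact Nat.mul_le_mul_right _ (card_le_card (filter_subset _ _))
    have h4 : 2 * X.card ≤ ℓ := by
      have : s * (2 * X.card) ≤ s * ℓ := by
        calc s * (2 * X.card) = 2 * s * X.card := by ring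
          _ ≤ s * ℓ := h3
      exact Nat.le_of_mul_le_mul_left this hs
    show ℓ ≤ 2 * ((B i).filter (fun y => ∀ j ∈ I, i < j → ¬ bad y j)).card
    omega
  · intro i hi j hj hij
    exact hlt i j hij (mem_range.1 (hI1 hj))
  · intro i hi j hj hij y hy z hz z' hz'
    have h1 := (mem_filter.1 hy).2 j hj hij
    have h2 : ∀ z ∈ B j, ∀ z' ∈ B j, z < z' → c y z = c y z' := by
      intro z hz z' hz' hzz
      by_contra h3
      exact h1 ⟨z, hz, z', hz', hzz, h3⟩
    rcases lt_trichotomy z z' with h3 | h3 | h3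
    · exact h2 z hz z' hz' h3
    · rw [h3]
    · exact (h2 z' hz' z hz h3).symm

end Pool.Agent.Q274.IV
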