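import Pool.Agent.Q274.IV.Basic

/-!
# Chains of blocks
-/

namespace Pool.Agent.Q274.IV

open Finset Real

variable {α : Type*} [LinearOrder α] {κ : Type*} [Fintype κ] [DecidableEq κ]

/-- A chain of colour `b`: the pairs between `X i` and the later block `Z j` have colour `b`. -/
def Chain (c : α → α → κ) (Z : ℕ → Finset α) (b : κ) (J : Finset ℕ) (X : ℕ → Finset α) : Prop :=
  ∀ i ∈ J, ∀ j ∈ J, i < j → ∀ y ∈ X i, ∀ z ∈ Z j, c y z = b

/-- A notion of size (`Big V Y`: `Y` has size at least `V`) for the splitting argument. -/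
structure Split (κ : Type*) [Fintype κ] (Big : ℝ → Finset α → Prop) : Prop where
  mono : ∀ (V V' : ℝ) (Y : Finset α), V' ≤ V → Big V Y → Big V' Y
  split : ∀ v : κ → ℝ, (∀ b, 1 ≤ v b) → ∑ b, (v b)⁻¹ = 1 → ∀ (V : ℝ) (Y : Finset α)
    (T : κ → Finset α), Big V Y → (∀ y ∈ Y, ∃ b, y ∈ T b) → ∃ b, Big (V / v b) (T b)

theorem prod_update (v : κ → ℝ) (a : κ → ℕ) (b : κ) (hb : 1 ≤ a b) :
    (∏ b', v b' ^ (Function.update a b (a b - 1)) b') * v b = ∏ b', v b' ^ a b' := by
  rw [← mul_prod_erase univ _ (mem_univ b), ← mul_prod_erase univ (fun b' => v b' ^ a b') (mem_univ b)]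
  have h1 : ∏ x ∈ univ.erase b, v x ^ (Function.update a b (a b - 1)) x =
      ∏ x ∈ univ.erase b, v x ^ a x := by
    refine prod_congr rfl (fun x hx => ?_)
    rw [Function.update_of_ne (ne_of_mem_erase hx)]
  rw [h1, Function.update_self]
  obtain ⟨k, hk⟩ : ∃ k, a b = k + 1 := ⟨a b - 1, by omega⟩
  rw [hk, Nat.add_sub_cancel, pow_succ]
  ring

theorem sum_update (a : κ → ℕ) (b : κ) (hb : 1 ≤ a b) :
    (∑ b', (Function.update a b (a b - 1)) b') + 1 = ∑ b', a b' := by
  rw [← add_sum_erase univ _ (mem_univ b), ← add_sum_erase univ (fun b' => a b') (mem_univ b)]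
  have h1 : ∑ x ∈ univ.erase b, (Function.update a b (a b - 1)) x = ∑ x ∈ univ.erase b, a x := by
    refine sum_congr rfl (fun x hx => ?_)
    rw [Function.update_of_ne (ne_of_mem_erase hx)]
  rw [h1, Function.update_self]
  omega

theorem chain_exists {Big : ℕ → ℝ → Finset α → Prop} (hBig : ∀ i, Split κ (Big i)) (v : κ → ℝ)
    (hv : ∀ b, 1 ≤ v b) (hv1 : ∑ b, (v b)⁻¹ = 1) (hq : 2 ≤ Fintype.card κ) (c : α → α → κ)
    (Z : ℕ → Finset α) :
    ∀ n : ℕ, ∀ a : κ → ℕ, ∑ b, a b = n → ∀ (I : Finset ℕ) (Y : ℕ → Finset α),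
      (∀ i ∈ I, ∀ j ∈ I, i < j → ∀ y ∈ Y i, ∀ z ∈ Z j, ∀ z' ∈ Z j, c y z = c y z') →
      2 * ∏ b, v b ^ a b ≤ (I.card : ℝ) + 1 → (∀ i ∈ I, Big i (∏ b, v b ^ a b) (Y i)) →
      ∃ (b : κ) (J : Finset ℕ) (X : ℕ → Finset α), J ⊆ I ∧ J.card = a b + 1 ∧
        (∀ i ∈ J, X i ⊆ Y i ∧ Big i 1 (X i)) ∧ Chain c Z b J X := by
  intro n
  induction n with
  | zero =>
    intro a ha I Y _ hI hY
    have h0 : ∀ b, a b = 0 := fun b => (Finset.sum_eq_zero_iff.1 ha) b (mem_univ b)
    have hV : ∏ b, v b ^ a b = 1 := prod_eq_one (fun b _ => by rw [h0 b, pow_zero])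
    rw [hV] at hI hY
    have hne : I.Nonempty := by
      rw [← card_pos]
      have : (1 : ℝ) ≤ I.card := by linarith
      exact_mod_cast this
    obtain ⟨i, hi⟩ := hne
    have : Nonempty κ := Fintype.card_pos_iff.1 (by omega)
    obtain ⟨b⟩ := this
    refine ⟨b, {i}, Y, by simpa using hi, by rw [h0 b, card_singleton], ?_, ?_⟩
    · intro j hj
      rw [mem_singleton] at hj
      subst hj
      exact ⟨Subset.refl _, hY j hi⟩
    · intro j hj l hl hjl
      rw [mem_singleton] at hj hl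
      rw [hj, hl] at hjl
      exact absurd hjl (lt_irrefl _)
  | succ n ih =>
    intro a ha I Y hconst hI hY
    have hV1 : 1 ≤ ∏ b, v b ^ a b := by
      rw [← Finset.prod_const_one (s := (univ : Finset κ))]
      exact prod_le_prod (fun _ _ => zero_le_one) (fun b _ => one_le_pow₀ (hv b))
    have hne : I.Nonempty := by
      rw [← card_pos]
      have : (1 : ℝ) ≤ I.card := by linarith
      exact_mod_cast this
    by_cases hz : ∃ b, a b = 0
    · obtain ⟨b, hb⟩ := hz
      obtain ⟨i, hi⟩ := hne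
      refine ⟨b, {i}, Y, by simpa using hi, by rw [hb, card_singleton], ?_, ?_⟩
      · intro j hj
        rw [mem_singleton] at hj
        subst hj
        exact ⟨Subset.refl _, (hBig _).mono _ _ _ hV1 (hY j hi)⟩
      · intro j hj l hl hjl
        rw [mem_singleton] at hj hl
        rw [hj, hl] at hjl
        exact absurd hjl (lt_irrefl _)
    · push Not at hz
      have ha1 : ∀ b, 1 ≤ a b := fun b => Nat.one_le_iff_ne_zero.2 (hz b)
      set V := ∏ b, v b ^ a b with hV
      set j := I.max' hne with hj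
      have hjI : j ∈ I := I.max'_mem hne
      have hlt : ∀ i ∈ I.erase j, i < j := by
        intro i hi
        rw [mem_erase] at hi
        exact lt_of_le_of_ne (I.le_max' i hi.2) hi.1
      have hκ : Nonempty κ := Fintype.card_pos_iff.1 (by omega)
      have hsp : ∀ i ∈ I.erase j, ∃ b, Big i (V / v b) ((Y i).filter (fun y => ∀ z ∈ Z j, c y z = b)) := by
        intro i hi
        refine (hBig _).split v hv hv1 V (Y i) _ (hY i (mem_of_mem_erase hi)) ?_
        intro y hy
        rcases (Z j).eq_empty_or_nonempty with hZ | ⟨z0, hz0⟩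
        · obtain ⟨b⟩ := hκ
          refine ⟨b, mem_filter.2 ⟨hy, ?_⟩⟩
          intro z hz'
          rw [hZ] at hz'
          simp at hz'
        · refine ⟨c y z0, mem_filter.2 ⟨hy, fun z hz' => ?_⟩⟩
          exact hconst i (mem_of_mem_erase hi) j hjI (hlt i hi) y hy z hz' z0 hz0
      choose! col hcol using hsp
      have hex : ∃ b, 2 * (V / v b) ≤ (((I.erase j).filter (fun i => col i = b)).card : ℝ) + 1 := by
        by_contra hcon
        push Not at hcon
        have h1 : ∑ b, ((((I.erase j).filter (fun i => col i = b)).card : ℝ) + 1) <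
            ∑ b, 2 * (V / v b) := by
          refine sum_lt_sum_of_nonempty univ_nonempty (fun b _ => hcon b)
        have h2 : ∑ b, 2 * (V / v b) = 2 * V := by
          have : ∀ b, 2 * (V / v b) = 2 * V * (v b)⁻¹ := fun b => by rw [div_eq_mul_inv]; ring
          rw [sum_congr rfl (fun b _ => this b), ← mul_sum, hv1, mul_one]
        have h3 : (∑ b, (((I.erase j).filter (fun i => col i = b)).card : ℝ)) = (I.card : ℝ) - 1 := by
          have h4 : ∑ b, ((I.erase j).filter (fun i => col i = b)).card = (I.erase j).card := by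
            rw [card_eq_sum_card_fiberwise (f := col) (t := univ) (fun _ _ => mem_coe.2 (mem_univ _))]
          rw [← Nat.cast_sum, h4, card_erase_of_mem hjI, Nat.cast_sub (card_pos.2 ⟨j, hjI⟩),
            Nat.cast_one]
        rw [sum_add_distrib, h2, h3, sum_const, card_univ, nsmul_eq_mul, mul_one] at h1
        have h5 : (2 : ℝ) ≤ Fintype.card κ := by exact_mod_cast hq
        linarith
      obtain ⟨b, hb⟩ := hex
      have hvb : 0 < v b := lt_of_lt_of_le one_pos (hv b)
      have hup : ∏ b', v b' ^ (Function.update a b (a b - 1)) b' = V / v b := by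
        rw [eq_div_iff hvb.ne']
        exact prod_update v a b (ha1 b)
      set I' := (I.erase j).filter (fun i => col i = b) with hI'
      have hI'I : I' ⊆ I := (filter_subset _ _).trans (erase_subset _ _)
      have hI'col : ∀ i ∈ I', col i = b := fun i hi => (mem_filter.1 hi).2
      have hI'lt : ∀ i ∈ I', i < j := fun i hi => hlt i (mem_filter.1 hi).1
      obtain ⟨b', J, X, hJ1, hJ2, hJ3, hJ4⟩ := ih (Function.update a b (a b - 1))
        (by have := sum_update a b (ha1 b); omega) I'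
        (fun i => (Y i).filter (fun y => ∀ z ∈ Z j, c y z = b))
        (fun i hi l hl hil y hy => hconst i (hI'I hi) l (hI'I hl) hil y (mem_filter.1 hy).1)
        (by rw [hup]; exact hb)
        (fun i hi => by
          rw [hup]
          have := hcol i (mem_filter.1 hi).1
          rw [hI'col i hi] at this
          exact this)
      by_cases hbb : b' = b
      · subst hbb
        have hjJ : j ∉ J := fun h => absurd (hI'lt j (hJ1 h)) (lt_irrefl _)
        refine ⟨b', insert j J, Function.update X j (Y j), ?_, ?_, ?_, ?_⟩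
        · intro i hi
          rw [mem_insert] at hi
          rcases hi with rfl | hi
          · exact hjI
          · exact hI'I (hJ1 hi)
        · rw [card_insert_of_notMem hjJ, hJ2, Function.update_self]
          have := ha1 b'
          omega
        · intro i hi
          rw [mem_insert] at hi
          by_cases hij : i = j
          · subst hij
            rw [Function.update_self]
            exact ⟨Subset.refl _, (hBig _).mono _ _ _ hV1 (hY _ hjI)⟩
          · rw [Function.update_of_ne hij]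
            rcases hi with hi | hi
            · exact absurd hi hij
            · exact ⟨(hJ3 i hi).1.trans (filter_subset _ _), (hJ3 i hi).2⟩
        · intro i hi l hl hil y hy z hz'
          rw [mem_insert] at hi hl
          have hij : i ≠ j := by
            intro h
            rw [h] at hil
            rcases hl with rfl | hl
            · exact absurd hil (lt_irrefl _)
            · exact absurd (lt_trans hil (hI'lt l (hJ1 hl))) (lt_irrefl _)
          rw [Function.update_of_ne hij] at hy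
          have hiJ : i ∈ J := by
            rcases hi with hi | hi
            · exact absurd hi hij
            · exact hi
          rcases hl with rfl | hl
          · exact (mem_filter.1 ((hJ3 i hiJ).1 hy)).2 z hz'
          · exact hJ4 i hiJ l hl hil y hy z hz'
      · refine ⟨b', J, X, hJ1.trans hI'I, ?_, ?_, hJ4⟩
        · rw [hJ2, Function.update_of_ne hbb]
        · intro i hi
          exact ⟨(hJ3 i hi).1.trans (filter_subset _ _), (hJ3 i hi).2⟩

theorem log_le_sqrt {x : ℝ} (hx : 0 < x) : Real.log x ≤ √x := by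
  have h1 : Real.log (√x) ≤ √x - 1 := log_le_sub_one_of_pos (sqrt_pos.2 hx)
  have h2 : Real.log x = 2 * Real.log (√x) := by
    rw [Real.log_sqrt hx.le]
    ring
  have h3 : Real.log (√x / 2) ≤ √x / 2 - 1 := log_le_sub_one_of_pos (by
    have := sqrt_pos.2 hx
    positivity)
  rw [log_div (sqrt_pos.2 hx).ne' (by norm_num)] at h3
  have h4 : Real.log 2 < 0.6931471808 := Real.log_two_lt_d9
  linarith

theorem prod_le (a : κ → ℕ) (ha : ∀ b, 1 ≤ a b) (hq : 2 ≤ Fintype.card κ) :
    ∏ b, ((∑ b', (a b' : ℝ)) / a b) ^ a b ≤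
      exp ((Fintype.card κ : ℝ) ^ 2 * √(∏ b, (a b : ℝ))) := by
  classical
  have hκ : Nonempty κ := Fintype.card_pos_iff.1 (by omega)
  set q : ℝ := (Fintype.card κ : ℝ) with hqd
  have hq2 : (2 : ℝ) ≤ q := by rw [hqd]; exact_mod_cast hq
  set S : ℝ := ∑ b', (a b' : ℝ) with hS
  set Pr : ℝ := ∏ b, (a b : ℝ) with hPr
  have har : ∀ b, (1 : ℝ) ≤ a b := fun b => by exact_mod_cast ha b
  obtain ⟨b0, -, hb0⟩ := exists_max_image (univ : Finset κ) a univ_nonempty
  have hmax : ∀ b, (a b : ℝ) ≤ a b0 := fun b => by exact_mod_cast hb0 b (mem_univ b)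
  have hSle : S ≤ q * a b0 := by
    calc S ≤ ∑ _b : κ, (a b0 : ℝ) := sum_le_sum (fun b _ => hmax b)
      _ = q * a b0 := by rw [sum_const, card_univ, nsmul_eq_mul]
  have hSge : ∀ b, (a b : ℝ) ≤ S := fun b =>
    single_le_sum (f := fun b' => (a b' : ℝ)) (fun b' _ => by positivity) (mem_univ b)
  have hpair : ∀ b, b ≠ b0 → (a b0 : ℝ) * a b ≤ Pr := by
    intro b hb
    rw [hPr, ← mul_prod_erase univ _ (mem_univ b0),
      ← mul_prod_erase (univ.erase b0) _ (mem_erase.2 ⟨hb, mem_univ b⟩)]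
    have h1 : (1 : ℝ) ≤ ∏ x ∈ (univ.erase b0).erase b, (a x : ℝ) := by
      rw [← Finset.prod_const_one (s := (univ.erase b0).erase b)]
      exact prod_le_prod (fun _ _ => zero_le_one) (fun b _ => har b)
    have h2 : 0 ≤ (a b0 : ℝ) * a b := by positivity
    calc (a b0 : ℝ) * a b = (a b0 : ℝ) * (a b * 1) := by ring
      _ ≤ (a b0 : ℝ) * (a b * ∏ x ∈ (univ.erase b0).erase b, (a x : ℝ)) := by gcongr
  have hb1 : ∀ b, b ≠ b0 → (a b : ℝ) ≤ √Pr := by
    intro b hb
    apply le_sqrt_of_sq_le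
    have := hpair b hb
    have h2 := hmax b
    have h3 := har b
    nlinarith
  -- the bound for the logarithms
  have hlog : ∀ b, b ≠ b0 → (a b : ℝ) * Real.log (S / a b) ≤ √q * √Pr := by
    intro b hb
    have hpos : (0 : ℝ) < a b := by linarith [har b]
    have hSpos : 0 < S := lt_of_lt_of_le hpos (hSge b)
    calc (a b : ℝ) * Real.log (S / a b) ≤ a b * √(S / a b) :=
          mul_le_mul_of_nonneg_left (log_le_sqrt (by positivity)) hpos.le
      _ = √(S * a b) := by
          rw [show S * a b = (a b) ^ 2 * (S / a b) by field_simp, sqrt_mul (by positivity),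
            sqrt_sq hpos.le]
      _ ≤ √(q * Pr) := by
          apply sqrt_le_sqrt
          have := hpair b hb
          nlinarith
      _ = √q * √Pr := sqrt_mul (by positivity) _
  have hlog0 : (a b0 : ℝ) * Real.log (S / a b0) ≤ ∑ b ∈ univ.erase b0, √Pr := by
    have hpos : (0 : ℝ) < a b0 := by linarith [har b0]
    have hSpos : 0 < S := lt_of_lt_of_le hpos (hSge b0)
    calc (a b0 : ℝ) * Real.log (S / a b0) ≤ a b0 * (S / a b0 - 1) :=
          mul_le_mul_of_nonneg_left (log_le_sub_one_of_pos (by positivity)) hpos.le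
      _ = S - a b0 := by field_simp
      _ = ∑ b ∈ univ.erase b0, (a b : ℝ) := by
          rw [hS, ← add_sum_erase univ _ (mem_univ b0)]
          ring
      _ ≤ ∑ b ∈ univ.erase b0, √Pr := sum_le_sum (fun b hb => hb1 b (ne_of_mem_erase hb))
  have hsum : ∑ b, (a b : ℝ) * Real.log (S / a b) ≤ q ^ 2 * √Pr := by
    rw [← add_sum_erase univ _ (mem_univ b0)]
    have h1 : ∑ b ∈ univ.erase b0, (a b : ℝ) * Real.log (S / a b) ≤
        ∑ b ∈ univ.erase b0, √q * √Pr := sum_le_sum (fun b hb => hlog b (ne_of_mem_erase hb))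
    rw [sum_const, card_erase_of_mem (mem_univ b0), card_univ, nsmul_eq_mul,
      Nat.cast_sub (by omega), Nat.cast_one, ← hqd] at h1
    rw [sum_const, card_erase_of_mem (mem_univ b0), card_univ, nsmul_eq_mul,
      Nat.cast_sub (by omega), Nat.cast_one, ← hqd] at hlog0
    have h2 : √q ≤ q := by
      rw [sqrt_le_left (by linarith)]
      nlinarith
    have h3 : 0 ≤ √Pr := sqrt_nonneg _
    have h4 : (q - 1) * (√q * √Pr) + (q - 1) * √Pr ≤ q ^ 2 * √Pr := by
      have h5 : (q - 1) * (√q + 1) ≤ q ^ 2 := by nlinarith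
      calc (q - 1) * (√q * √Pr) + (q - 1) * √Pr = ((q - 1) * (√q + 1)) * √Pr := by ring
        _ ≤ q ^ 2 * √Pr := mul_le_mul_of_nonneg_right h5 h3
    linarith
  have hexp : ∏ b, (S / a b) ^ a b = exp (∑ b, (a b : ℝ) * Real.log (S / a b)) := by
    rw [exp_sum]
    refine prod_congr rfl (fun b _ => ?_)
    have hpos : (0 : ℝ) < a b := by linarith [har b]
    have hSpos : 0 < S := lt_of_lt_of_le hpos (hSge b)
    rw [exp_nat_mul, exp_log (by positivity)]
  rw [hexp]
  exact exp_le_exp.2 hsum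

/-- Long chains: the product over the colours of the lengths is at least `p ^ 2`. -/
theorem chains {Big : ℕ → ℝ → Finset α → Prop} (hBig : ∀ i, Split κ (Big i)) (hq : 2 ≤ Fintype.card κ)
    (c : α → α → κ) (Z Y : ℕ → Finset α) (I : Finset ℕ)
    (hconst : ∀ i ∈ I, ∀ j ∈ I, i < j → ∀ y ∈ Y i, ∀ z ∈ Z j, ∀ z' ∈ Z j, c y z = c y z')
    (p : ℝ) (hp : 0 ≤ p) (hI : 2 * exp ((Fintype.card κ : ℝ) ^ 2 * p) ≤ (I.card : ℝ) + 1)
    (hY : ∀ i ∈ I, Big i (exp ((Fintype.card κ : ℝ) ^ 2 * p)) (Y i)) :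
    ∃ a : κ → ℕ, (∀ b, ∃ (J : Finset ℕ) (X : ℕ → Finset α), J ⊆ I ∧ J.card = a b ∧
      (∀ i ∈ J, X i ⊆ Y i ∧ Big i 1 (X i)) ∧ Chain c Z b J X) ∧ p ^ 2 ≤ ∏ b, (a b : ℝ) := by
  classical
  have hκ : Nonempty κ := Fintype.card_pos_iff.1 (by omega)
  set K : κ → Finset (Finset ℕ) := fun b => I.powerset.filter (fun J =>
    ∃ X : ℕ → Finset α, (∀ i ∈ J, X i ⊆ Y i ∧ Big i 1 (X i)) ∧ Chain c Z b J X) with hK
  have hexp1 : 1 ≤ exp ((Fintype.card κ : ℝ) ^ 2 * p) := one_le_exp (by positivity)
  have hne : I.Nonempty := by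
    rw [← card_pos]
    have : (1 : ℝ) ≤ I.card := by linarith
    exact_mod_cast this
  obtain ⟨i0, hi0⟩ := hne
  have hsing : ∀ b, {i0} ∈ K b := by
    intro b
    rw [hK, mem_filter, mem_powerset]
    refine ⟨by simpa using hi0, Y, ?_, ?_⟩
    · intro i hi
      rw [mem_singleton] at hi
      subst hi
      exact ⟨Subset.refl _, (hBig _).mono _ _ _ hexp1 (hY _ hi0)⟩
    · intro j hj l hl hjl
      rw [mem_singleton] at hj hl
      rw [hj, hl] at hjl
      exact absurd hjl (lt_irrefl _)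
  set a : κ → ℕ := fun b => (K b).sup card with ha
  have ha1 : ∀ b, 1 ≤ a b := by
    intro b
    have h1 : ({i0} : Finset ℕ).card ≤ (K b).sup card := Finset.le_sup (f := card) (hsing b)
    rw [card_singleton] at h1
    exact h1
  refine ⟨a, ?_, ?_⟩
  · intro b
    obtain ⟨J, hJ, h⟩ := Finset.exists_mem_eq_sup (K b) ⟨_, hsing b⟩ card
    rw [hK, mem_filter, mem_powerset] at hJ
    obtain ⟨h1, X, h2, h3⟩ := hJ
    exact ⟨J, X, h1, h.symm, h2, h3⟩
  · by_contra hcon
    push Not at hcon
    have har : ∀ b, (1 : ℝ) ≤ a b := fun b => by exact_mod_cast ha1 b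
    have hSge : ∀ b, (a b : ℝ) ≤ ∑ b', (a b' : ℝ) := fun b =>
      single_le_sum (f := fun b' => (a b' : ℝ)) (fun b' _ => by positivity) (mem_univ b)
    have hSpos : 0 < ∑ b', (a b' : ℝ) := by
      obtain ⟨b⟩ := hκ
      linarith [hSge b, har b]
    have hsq : √(∏ b, (a b : ℝ)) ≤ p := by
      rw [sqrt_le_left hp]
      exact hcon.le
    have hVle : ∏ b, ((∑ b', (a b' : ℝ)) / a b) ^ a b ≤ exp ((Fintype.card κ : ℝ) ^ 2 * p) :=
      (prod_le a ha1 hq).trans (exp_le_exp.2 (mul_le_mul_of_nonneg_left hsq (by positivity)))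
    obtain ⟨b, J, X, h1, h2, h3, h4⟩ := chain_exists hBig (fun b => (∑ b', (a b' : ℝ)) / a b)
      (fun b => by rw [le_div_iff₀ (by linarith [har b]), one_mul]; exact hSge b)
      (by
        have : ∀ b, ((∑ b', (a b' : ℝ)) / a b)⁻¹ = (a b : ℝ) * (∑ b', (a b' : ℝ))⁻¹ := by
          intro b
          rw [inv_div, div_eq_mul_inv]
        rw [sum_congr rfl (fun b _ => this b), ← sum_mul, mul_inv_cancel₀ hSpos.ne'])
      hq c Z _ a rfl I Y hconst (by linarith) (fun i hi => (hBig _).mono _ _ _ hVle (hY i hi))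
    have h5 : J ∈ K b := by
      rw [hK, mem_filter, mem_powerset]
      exact ⟨h1, X, h3, h4⟩
    have h6 : J.card ≤ a b := Finset.le_sup (f := card) h5
    omega

/-- Homogeneous sets from a chain. -/
theorem merge {c : α → α → κ} {Z X : ℕ → Finset α} {b : κ} {J : Finset ℕ} {W : Finset α}
    (hX : ∀ i ∈ J, X i ⊆ Z i) (hW : ∀ i ∈ J, X i ⊆ W)
    (hlt : ∀ i ∈ J, ∀ j ∈ J, i < j → ∀ x ∈ Z i, ∀ y ∈ Z j, x < y) (hC : Chain c Z b J X) :
    ∑ i ∈ J, hn c b (X i) ≤ hn c b W := by
  classical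
  have key : ∀ i, ∃ A ⊆ X i, Hom c b A ∧ A.card = hn c b (X i) := fun i => exists_hn c b (X i)
  choose A hA1 hA2 hA3 using key
  have hdisj : ∀ i ∈ J, ∀ j ∈ J, i ≠ j → Disjoint (A i) (A j) := by
    intro i hi j hj hij
    rw [Finset.disjoint_left]
    intro x hx hx'
    rcases lt_or_gt_of_ne hij with h | h
    · exact absurd (hlt i hi j hj h x (hX i hi (hA1 i hx)) x (hX j hj (hA1 j hx'))) (lt_irrefl _)
    · exact absurd (hlt j hj i hi h x (hX j hj (hA1 j hx')) x (hX i hi (hA1 i hx))) (lt_irrefl _)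
  have h1 : (J.biUnion A).card = ∑ i ∈ J, hn c b (X i) := by
    rw [card_biUnion hdisj]
    exact sum_congr rfl (fun i _ => hA3 i)
  rw [← h1]
  apply le_hn
  · rw [biUnion_subset]
    exact fun i hi => (hA1 i).trans (hW i hi)
  · intro x hx y hy hxy
    rw [mem_biUnion] at hx hy
    obtain ⟨i, hi, hxi⟩ := hx
    obtain ⟨j, hj, hyj⟩ := hy
    rcases lt_trichotomy i j with h | h | h
    · exact hC i hi j hj h x (hA1 i hxi) y (hX j hj (hA1 j hyj))
    · subst h
      exact hA2 i x hxi y hyj hxy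
    · exact absurd (lt_trans hxy (hlt j hj i hi h y (hX j hj (hA1 j hyj)) x (hX i hi (hA1 i hxi))))
        (lt_irrefl _)

end Pool.Agent.Q274.IV
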