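import Pool.Agent.Q274.IV.PDefs
import Pool.Agent.Y422.TW.Final

/-!
# Lexicographic powers have few alternations
-/

namespace Pool.Agent.Q274.IV

open Finset Pool.Agent.Y422.TW

/-- lexicographic product on `Fin (M * N)` -/
def prodG {M N : ℕ} (G : SimpleGraph (Fin M)) (H : SimpleGraph (Fin N)) :
    SimpleGraph (Fin (M * N)) :=
  (lex G H).comap (fun v => (v.divNat, v.modNat))

theorem prodG_adj {M N : ℕ} (G : SimpleGraph (Fin M)) (H : SimpleGraph (Fin N))
    (v z : Fin (M * N)) : (prodG G H).Adj v z ↔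
      (G.Adj v.divNat z.divNat ∨ (v.divNat = z.divNat ∧ H.Adj v.modNat z.modNat)) := Iff.rfl

theorem inj_divmod {M N : ℕ} : Function.Injective
    (fun v : Fin (M * N) => ((v.divNat, v.modNat) : Fin M × Fin N)) := by
  have := (finProdFinEquiv (m := M) (n := N)).symm.injective
  exact this

theorem prodG_free {M N a b : ℕ} (G : SimpleGraph (Fin M)) (H : SimpleGraph (Fin N))
    (hG : G.CliqueFree (a + 1)) (hH : H.CliqueFree (b + 1)) :
    (prodG G H).CliqueFree (a * b + 1) := by
  refine (lex_cliqueFree G H hG hH).comap ?_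
  refine ⟨⟨⟨fun v => (v.divNat, v.modNat), fun {x y} h => h⟩, inj_divmod⟩⟩

theorem prodG_compl {M N : ℕ} (G : SimpleGraph (Fin M)) (H : SimpleGraph (Fin N)) :
    (prodG G H)ᶜ = prodG Gᶜ Hᶜ := by
  have h : (prodG G H)ᶜ = (lex G H)ᶜ.comap
      (fun v : Fin (M * N) => ((v.divNat, v.modNat) : Fin M × Fin N)) := by
    ext x y
    rw [SimpleGraph.compl_adj, SimpleGraph.comap_adj, SimpleGraph.compl_adj]
    rw [inj_divmod.ne_iff]
    rfl
  rw [h, lex_compl]
  rfl

theorem changes_prodG {M N : ℕ} (G : SimpleGraph (Fin M)) (H : SimpleGraph (Fin N))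
    (v : Fin (M * N)) : changesAfter (prodG G H) v ≤ M + changesAfter H v.modNat := by
  classical
  have hN : 0 < N := by
    have h1 : 0 < M * N := lt_of_le_of_lt (Nat.zero_le _) v.2
    exact Nat.pos_of_ne_zero (right_ne_zero_of_mul h1.ne')
  set S := (univ : Finset (Fin (M * N))).filter (fun z => v < z ∧
    ∃ h : z.1 + 1 < M * N, ¬ ((prodG G H).Adj v z ↔ (prodG G H).Adj v ⟨z.1 + 1, h⟩)) with hS
  have h0 : changesAfter (prodG G H) v = S.card := rfl
  rw [h0, ← card_filter_add_card_filter_not (s := S) (fun z => (z.1 + 1) / N ≠ z.1 / N)]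
  apply Nat.add_le_add
  · refine le_trans (card_le_card_of_injOn (t := range M) (fun z => z.1 / N) ?_ ?_) (card_range M).le
    · intro z _
      rw [coe_range, Set.mem_Iio]
      exact Nat.div_lt_of_lt_mul (lt_of_lt_of_eq z.2 (mul_comm _ _))
    · intro z hz z' hz' hzz
      rw [mem_coe, mem_filter] at hz hz'
      have key : ∀ z : ℕ, (z + 1) / N ≠ z / N → z + 1 = N * (z / N + 1) := by
        intro z hz
        have h1 : (z + 1) / N = z / N + 1 := by
          have := Nat.succ_div (a := z) (b := N)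
          rw [Nat.succ_div] at hz ⊢
          split_ifs at hz ⊢ with h2
          · rfl
          · simp at hz
        have h2 : N ∣ z + 1 := by
          rw [Nat.succ_div] at hz
          split_ifs at hz with h3
          · exact h3
          · simp at hz
        rw [← h1, Nat.mul_div_cancel' h2]
      have h1 := key z.1 hz.2
      have h2 := key z'.1 hz'.2
      have h3 : z.1 / N = z'.1 / N := hzz
      rw [h3] at h1
      apply Fin.ext
      omega
  · have hdiv : ∀ z ∈ S.filter (fun z => ¬ ((z.1 + 1) / N ≠ z.1 / N)), z.1 / N = v.1 / N ∧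
        z.1 % N + 1 < N ∧ v.1 % N < z.1 % N ∧
        ∃ h : z.1 % N + 1 < N, ¬ (H.Adj v.modNat ⟨z.1 % N, Nat.mod_lt _ hN⟩ ↔
          H.Adj v.modNat ⟨z.1 % N + 1, h⟩) := by
      intro z hz
      rw [mem_filter, not_not] at hz
      obtain ⟨hzS, hz2⟩ := hz
      obtain ⟨-, hvz, hz1, hz3⟩ := mem_filter.1 hzS
      have hmod : (z.1 + 1) % N = z.1 % N + 1 := by
        have e1 := Nat.div_add_mod (z.1 + 1) N
        have e2 := Nat.div_add_mod z.1 N
        rw [hz2] at e1
        omega
      have hmodlt : z.1 % N + 1 < N := by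
        rw [← hmod]
        exact Nat.mod_lt _ hN
      have e1 : (⟨z.1 + 1, hz1⟩ : Fin (M * N)).divNat = z.divNat := Fin.ext hz2
      have e2 : (⟨z.1 + 1, hz1⟩ : Fin (M * N)).modNat = ⟨z.1 % N + 1, hmodlt⟩ := Fin.ext hmod
      have e3 : z.modNat = ⟨z.1 % N, Nat.mod_lt _ hN⟩ := rfl
      rw [prodG_adj, prodG_adj, e1, e2, e3] at hz3
      have hdv : v.divNat = z.divNat := by
        by_contra hne
        apply hz3
        simp only [hne, false_and, or_false]
      have hdv' : z.1 / N = v.1 / N := (congrArg Fin.val hdv).symm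
      have hirr : ¬ G.Adj v.divNat z.divNat := by
        rw [hdv]
        exact G.loopless.irrefl _
      refine ⟨hdv', hmodlt, ?_, hmodlt, ?_⟩
      · rw [Fin.lt_def] at hvz
        have e4 := Nat.div_add_mod z.1 N
        have e5 := Nat.div_add_mod v.1 N
        rw [hdv'] at e4
        omega
      · intro hcon
        apply hz3
        simp only [hdv, true_and]
        rw [hcon]
    have h1 : changesAfter H v.modNat = ((univ : Finset (Fin N)).filter (fun z => v.modNat < z ∧
      ∃ h : z.1 + 1 < N, ¬ (H.Adj v.modNat z ↔ H.Adj v.modNat ⟨z.1 + 1, h⟩))).card := rfl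
    rw [h1]
    refine card_le_card_of_injOn (fun z => ⟨z.1 % N, Nat.mod_lt _ hN⟩) ?_ ?_
    · intro z hz
      obtain ⟨g1, g2, g3, g4, g5⟩ := hdiv z hz
      rw [mem_coe, mem_filter]
      refine ⟨mem_univ _, ?_, g2, g5⟩
      rw [Fin.lt_def]
      exact g3
    · intro z hz z' hz' hzz
      have g1 := (hdiv z hz).1
      have g2 := (hdiv z' hz').1
      have g3 : z.1 % N = z'.1 % N := congrArg Fin.val hzz
      apply Fin.ext
      rw [← Nat.div_add_mod z.1 N, ← Nat.div_add_mod z'.1 N, g1, g2, g3]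

theorem changesAfter_eq_zero {n : ℕ} (G : SimpleGraph (Fin n)) (v : Fin n)
    (h : ∀ z, v < z → ∀ hz : z.1 + 1 < n, (G.Adj v z ↔ G.Adj v ⟨z.1 + 1, hz⟩)) :
    changesAfter G v = 0 := by
  classical
  unfold changesAfter
  rw [card_eq_zero]
  apply eq_empty_of_forall_notMem
  intro z hz
  obtain ⟨-, hvz, h1, h3⟩ := mem_filter.1 hz
  exact h3 (h z hvz h1)

theorem powerG (m : ℕ) (hm : 1 ≤ m) (B : ℕ) (hB : 1 ≤ B) (j : ℕ) :
    ∃ (n : ℕ) (G : SimpleGraph (Fin n)), n = (2 ^ m) ^ j * B ∧
      G.CliqueFree ((2 * m + 1) ^ j * B + 1) ∧ Gᶜ.CliqueFree ((2 * m + 1) ^ j * B + 1) ∧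
      ∀ v, changesAfter G v ≤ j * 2 ^ m := by
  classical
  obtain ⟨G0, h1, h2⟩ := erdos m hm
  induction j with
  | zero =>
    refine ⟨B, ⊤, by simp, ?_, ?_, ?_⟩
    · apply SimpleGraph.cliqueFree_of_card_lt
      simp
    · rw [compl_top, pow_zero, one_mul]
      exact (SimpleGraph.cliqueFree_bot (le_refl 2)).mono (by omega)
    · intro v
      rw [zero_mul, Nat.le_zero]
      refine changesAfter_eq_zero _ v (fun z hvz h => ?_)
      rw [Fin.lt_def] at hvz
      rw [SimpleGraph.top_adj, SimpleGraph.top_adj]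
      constructor
      · intro _ he
        have := congrArg Fin.val he
        simp only at this
        omega
      · intro _ he
        have := congrArg Fin.val he
        omega
  | succ j ih =>
    obtain ⟨n, G, hn, g1, g2, g3⟩ := ih
    refine ⟨2 ^ m * n, prodG G0 G, by rw [hn, pow_succ]; ring, ?_, ?_, ?_⟩
    · have := prodG_free (a := 2 * m + 1) G0 G h1 g1
      rw [pow_succ, mul_comm ((2 * m + 1) ^ j), mul_assoc]
      exact this
    · rw [prodG_compl]
      have := prodG_free (a := 2 * m + 1) G0ᶜ Gᶜ h2 g2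
      rw [pow_succ, mul_comm ((2 * m + 1) ^ j), mul_assoc]
      exact this
    · intro v
      have h3 := changes_prodG G0 G v
      have h4 := g3 v.modNat
      rw [add_mul, one_mul]
      omega

end Pool.Agent.Q274.IV
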