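import Pool.Agent.Q274.IV.Pairs
import Pool.Agent.Q274.IV.Lex

/-!
# Graphs with few alternations: the theorems
-/

namespace Pool.Agent.Q274.IV

open Finset Real

theorem lowerG (j : ℕ) (hj : 1 ≤ j) (k : ℕ) (hk : 3 ≤ k) :
    ∃ (n t : ℕ) (G : SimpleGraph (Fin n)), (∀ v, changesAfter G v ≤ t) ∧
      G.CliqueFree k ∧ Gᶜ.CliqueFree k ∧ t ^ j ≤ n ∧ 1 ≤ n ∧
      log 2 / (5 * j) * (k : ℝ) ^ ((1 : ℝ) / j) ≤ log n := by
  have hjr : (1 : ℝ) ≤ j := by exact_mod_cast hj
  have hj0 : (j : ℝ) ≠ 0 := by linarith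
  have hlog : 0 < log 2 := log_pos (by norm_num)
  have hroot : ∀ x : ℕ, k ≤ x ^ j → (k : ℝ) ^ ((1 : ℝ) / j) ≤ x := by
    intro x hx
    have h1 : (k : ℝ) ≤ (x : ℝ) ^ j := by exact_mod_cast hx
    calc (k : ℝ) ^ ((1 : ℝ) / j) ≤ ((x : ℝ) ^ j) ^ ((1 : ℝ) / j) :=
          rpow_le_rpow (by positivity) h1 (by positivity)
      _ = x := by
          rw [← rpow_natCast, ← rpow_mul (by positivity), mul_one_div, div_self hj0, rpow_one]
  by_cases hk3 : k ≤ (3 * j) ^ j
  · refine ⟨2, 0, ⊥, ?_, ?_, ?_, ?_, by norm_num, ?_⟩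
    · intro v
      rw [changesAfter_eq_zero]
      intro z _ _
      simp
    · exact SimpleGraph.cliqueFree_of_card_lt (by rw [Fintype.card_fin]; omega)
    · exact SimpleGraph.cliqueFree_of_card_lt (by rw [Fintype.card_fin]; omega)
    · rw [zero_pow (by omega)]
      norm_num
    · have h1 := hroot (3 * j) hk3
      rw [div_mul_eq_mul_div, div_le_iff₀ (by positivity)]
      push_cast at h1 ⊢
      have h2 : log 2 * (k : ℝ) ^ ((1 : ℝ) / j) ≤ log 2 * (3 * j) :=
        mul_le_mul_of_nonneg_left h1 hlog.le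
      have h3 : 0 ≤ log 2 * j := by positivity
      nlinarith
  · push Not at hk3
    have hex : ∃ m : ℕ, k ≤ ((2 * m + 3) * j) ^ j := by
      refine ⟨k, ?_⟩
      calc k ≤ (2 * k + 3) * j := by nlinarith
        _ = ((2 * k + 3) * j) ^ 1 := (pow_one _).symm
        _ ≤ ((2 * k + 3) * j) ^ j := Nat.pow_le_pow_right (by nlinarith) hj
    set m := Nat.find hex with hm
    have hm1 : k ≤ ((2 * m + 3) * j) ^ j := Nat.find_spec hex
    have hmpos : 1 ≤ m := by
      by_contra hcon
      have h0 : m = 0 := by omega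
      rw [h0] at hm1
      have h1 : k ≤ (3 * j) ^ j := hm1
      omega
    have hm2 : ((2 * m + 1) * j) ^ j < k := by
      have h1 := Nat.find_min hex (m := m - 1) (by omega)
      push Not at h1
      have e : 2 * (m - 1) + 3 = 2 * m + 1 := by omega
      rw [e] at h1
      exact h1
    obtain ⟨n, G, hn, g2, g3, g4⟩ := powerG m hmpos (j ^ j) (Nat.one_le_pow _ _ hj) j
    rw [← mul_pow] at g2 g3 hn
    refine ⟨n, j * 2 ^ m, G, g4, g2.mono (by omega), g3.mono (by omega), ?_, ?_, ?_⟩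
    · rw [hn, mul_comm]
    · rw [hn]
      exact Nat.one_le_pow _ _ (Nat.mul_pos (by positivity) hj)
    · have h1 := hroot ((2 * m + 3) * j) hm1
      have hmr : (1 : ℝ) ≤ m := by exact_mod_cast hmpos
      have h4 : (m : ℝ) * j * log 2 ≤ log n := by
        have h5 : ((2 : ℝ) ^ m) ^ j ≤ n := by
          rw [hn]
          push_cast
          apply pow_le_pow_left₀ (by positivity)
          have : (0 : ℝ) < 2 ^ m := by positivity
          nlinarith
        have h6 := log_le_log (by positivity) h5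
        rw [log_pow, log_pow] at h6
        linarith
      push_cast at h1
      have h7 : log 2 / (5 * j) * (k : ℝ) ^ ((1 : ℝ) / j) ≤ log 2 / (5 * j) * ((2 * m + 3) * j) :=
        mul_le_mul_of_nonneg_left h1 (by positivity)
      have h8 : log 2 / (5 * j) * ((2 * m + 3) * j) = log 2 * (2 * m + 3) / 5 := by
        field_simp
      rw [h8] at h7
      have h9 : log 2 * (2 * m + 3) / 5 ≤ log 2 * m := by nlinarith
      have h10 : log 2 * m ≤ (m : ℝ) * j * log 2 := by
        have : 0 ≤ (m : ℝ) * log 2 := by positivity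
        nlinarith
      linarith

theorem threshold (τ : ℝ) (h0 : 0 < τ) : ∃ c C : ℝ, 0 < c ∧ 0 < C ∧
    ∀ k : ℕ, 3 ≤ k →
      (∀ (n t : ℕ) (G : SimpleGraph (Fin n)), OneSided G t →
        (t : ℝ) ≤ (n : ℝ) ^ τ → G.CliqueFree k → Gᶜ.CliqueFree k →
        log n ≤ C * (k : ℝ) ^ ((1 : ℝ) / (⌈1 / τ⌉₊ : ℝ))) ∧
      (∃ (n t : ℕ) (G : SimpleGraph (Fin n)), (∀ v, changesAfter G v ≤ t) ∧
        (t : ℝ) ≤ (n : ℝ) ^ τ ∧ G.CliqueFree k ∧ Gᶜ.CliqueFree k ∧
        c * (k : ℝ) ^ ((1 : ℝ) / (⌈1 / τ⌉₊ : ℝ)) ≤ log n) := by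
  set j := ⌈1 / τ⌉₊ with hj
  have hjpos : 1 ≤ j := Nat.one_le_iff_ne_zero.2 (by
    have : 0 < j := Nat.ceil_pos.2 (by positivity)
    omega)
  have hjr : (1 : ℝ) ≤ j := by exact_mod_cast hjpos
  have hjge : 1 / τ ≤ j := Nat.le_ceil _
  have hjlt : (j : ℝ) < 1 / τ + 1 := Nat.ceil_lt_add_one (by positivity)
  have hlog : 0 < log 2 := log_pos (by norm_num)
  set δ : ℝ := 1 - τ * (j - 1) with hδ
  have hδpos : 0 < δ := by
    have : τ * (j - 1) < τ * (1 / τ) := mul_lt_mul_of_pos_left (by linarith) h0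
    rw [mul_one_div, div_self h0.ne'] at this
    linarith
  refine ⟨log 2 / (5 * j), ((j - 1) * log 2 + 5000 * j) / δ, by positivity, by
    have : 0 ≤ ((j : ℝ) - 1) * log 2 := mul_nonneg (by linarith) hlog.le
    positivity, ?_⟩
  intro k hk
  have hk1 : (1 : ℝ) ≤ k := by exact_mod_cast (by omega : 1 ≤ k)
  have hx : (1 : ℝ) ≤ (k : ℝ) ^ ((1 : ℝ) / j) := one_le_rpow hk1 (by positivity)
  refine ⟨?_, ?_⟩
  · intro n t G ht htn g1 g2
    rcases Nat.eq_zero_or_pos n with hV | hV
    · rw [hV, Nat.cast_zero, log_zero]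
      have : 0 ≤ ((j : ℝ) - 1) * log 2 := mul_nonneg (by linarith) hlog.le
      positivity
    · have hn : (1 : ℝ) ≤ n := by exact_mod_cast hV
      have hnpos : (0 : ℝ) < n := by linarith
      have h2 := upper j hjpos G t k ht g1 g2
      have h3 : (1 : ℝ) ≤ (n : ℝ) ^ τ := one_le_rpow hn h0.le
      have h4 : (t : ℝ) + 1 ≤ 2 * (n : ℝ) ^ τ := by linarith
      have h5 : ((t : ℝ) + 1) ^ (j - 1) ≤ (2 * (n : ℝ) ^ τ) ^ (j - 1) :=
        pow_le_pow_left₀ (by positivity) h4 _
      have h6 : (n : ℝ) ≤ (2 * (n : ℝ) ^ τ) ^ (j - 1) * exp (5000 * j * (k : ℝ) ^ ((1 : ℝ) / j)) :=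
        h2.trans (mul_le_mul_of_nonneg_right h5 (exp_pos _).le)
      have h7 := log_le_log hnpos h6
      rw [log_mul (by positivity) (exp_pos _).ne', log_exp, log_pow,
        log_mul (by norm_num) (by positivity), log_rpow hnpos] at h7
      have e : ((j - 1 : ℕ) : ℝ) = (j : ℝ) - 1 := by
        rw [Nat.cast_sub hjpos, Nat.cast_one]
      rw [e] at h7
      have h8 : δ * log n ≤ (j - 1) * log 2 + 5000 * j * (k : ℝ) ^ ((1 : ℝ) / j) := by
        rw [hδ]
        linarith
      have h9 : (j - 1) * log 2 ≤ (j - 1) * log 2 * (k : ℝ) ^ ((1 : ℝ) / j) := by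
        have : 0 ≤ ((j : ℝ) - 1) * log 2 := mul_nonneg (by linarith) hlog.le
        nlinarith
      rw [div_mul_eq_mul_div, le_div_iff₀ hδpos]
      linarith
  · obtain ⟨n, t, G, g1, g2, g3, g4, g5, g6⟩ := lowerG j hjpos k hk
    refine ⟨n, t, G, g1, ?_, g2, g3, g6⟩
    have h2 : (t : ℝ) ^ j ≤ n := by exact_mod_cast g4
    have h3 : (1 : ℝ) ≤ n := by exact_mod_cast g5
    have hj0 : (j : ℝ) ≠ 0 := by linarith
    have h4 : (t : ℝ) ≤ (n : ℝ) ^ ((1 : ℝ) / j) := by
      calc (t : ℝ) = ((t : ℝ) ^ j) ^ ((1 : ℝ) / j) := by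
            rw [← rpow_natCast, ← rpow_mul (by positivity), mul_one_div, div_self hj0, rpow_one]
        _ ≤ _ := rpow_le_rpow (by positivity) h2 (by positivity)
    have h5 : (1 : ℝ) / j ≤ τ := by
      rw [div_le_iff₀ (by linarith)]
      have := mul_le_mul_of_nonneg_left hjge h0.le
      rw [mul_one_div, div_self h0.ne'] at this
      exact this
    exact h4.trans (rpow_le_rpow_of_exponent_le h3 h5)

theorem small (t k : ℕ) (ht : 16 ≤ t) (hk : 2 * log t + 2 ≤ k) :
    (∀ (n : ℕ) (G : SimpleGraph (Fin n)), OneSided G t → G.CliqueFree k → Gᶜ.CliqueFree k →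
      log n ≤ 10000 * (log t * log k / log (log t))) ∧
    ((log k) ^ 2 ≤ t → ∃ (n : ℕ) (G : SimpleGraph (Fin n)), (∀ v, changesAfter G v ≤ t) ∧
      G.CliqueFree k ∧ Gᶜ.CliqueFree k ∧ log t * log k / log (log t) ≤ 24 * log n) := by
  have htr : (16 : ℝ) ≤ t := by exact_mod_cast ht
  have hlog2 : 0.6931471803 < log 2 := log_two_gt_d9
  have hlog2' : log 2 < 0.6931471808 := log_two_lt_d9
  set x : ℝ := log t with hx
  have hx1 : 2.77 ≤ x := by
    have h1 : log 16 = 4 * log 2 := by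
      rw [show (16 : ℝ) = 2 ^ 4 by norm_num, log_pow]
      norm_num
    have h2 : log 16 ≤ x := log_le_log (by norm_num) htr
    linarith
  have hlx : 1 < log x := by
    rw [lt_log_iff_exp_lt (by linarith)]
    have := exp_one_lt_d9
    linarith
  have hkr : 7 ≤ (k : ℝ) := by linarith
  have hlk : 0 < log k := log_pos (by linarith)
  set y : ℝ := log k / log x with hy
  have hy1 : 1 ≤ y := by
    rw [hy, le_div_iff₀ (by linarith), one_mul]
    exact log_le_log (by linarith) (by linarith)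
  have hxy : x * log k / log x = x * y := by rw [hy, mul_div_assoc]
  rw [hxy]
  refine ⟨?_, ?_⟩
  · intro n G hG g1 g2
    rcases Nat.eq_zero_or_pos n with hn0 | hn0
    · rw [hn0, Nat.cast_zero, log_zero]
      positivity
    have hn1 : (1 : ℝ) ≤ n := by exact_mod_cast hn0
    set p : ℕ := ⌈128 * x⌉₊ with hp
    have hp1 : 1 ≤ p := Nat.ceil_pos.2 (by linarith)
    have hpge : 128 * x ≤ p := Nat.le_ceil _
    have hple : (p : ℝ) ≤ 129 * x := by
      have := Nat.ceil_lt_add_one (show (0 : ℝ) ≤ 128 * x by linarith)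
      linarith
    set h : ℕ := ⌈y⌉₊ with hh
    have hhge : y ≤ h := Nat.le_ceil _
    have hhle : (h : ℝ) ≤ 2 * y := by
      have := Nat.ceil_lt_add_one (show (0 : ℝ) ≤ y by linarith)
      linarith
    have key : (n : ℝ) < (((t : ℝ) + 1) * exp (36 * p)) ^ h * (4 * exp (4 * (1 : ℝ))) := by
      by_contra hcon
      push Not at hcon
      have h3 := pairs_bound G hG g1 g2 h p hp1 1 (by norm_num) hcon
      have h4 : x ^ h ≤ ((p : ℝ) / 128) ^ h := by
        apply pow_le_pow_left₀ (by linarith)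
        linarith
      have h5 : (k : ℝ) ≤ x ^ h := by
        have h6 : log k ≤ h * log x := by
          have := mul_le_mul_of_nonneg_right hhge (show 0 ≤ log x by linarith)
          rw [hy, div_mul_cancel₀ _ (by linarith)] at this
          exact this
        have h7 := exp_le_exp.2 h6
        rw [exp_log (by linarith), exp_nat_mul, exp_log (by linarith)] at h7
        exact h7
      linarith
    have h1 := log_lt_log (by linarith) key
    rw [log_mul (by positivity) (by positivity), log_pow, log_mul (by positivity) (exp_pos _).ne',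
      log_exp, log_mul (by norm_num) (exp_pos _).ne', log_exp] at h1
    have h2 : log ((t : ℝ) + 1) ≤ 2 * x := by
      have h3 : (t : ℝ) + 1 ≤ (t : ℝ) ^ 2 := by nlinarith
      have h4 := log_le_log (by linarith) h3
      rw [log_pow] at h4
      exact_mod_cast h4
    have h3 : log 4 ≤ 2 := by
      rw [show (4 : ℝ) = 2 ^ 2 by norm_num, log_pow]
      push_cast
      linarith
    have h4 : (h : ℝ) * (log ((t : ℝ) + 1) + 36 * p) ≤ (2 * y) * (4646 * x) := by
      have h5 : log ((t : ℝ) + 1) + 36 * p ≤ 4646 * x := by linarith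
      have h6 : 0 ≤ log ((t : ℝ) + 1) := log_nonneg (by linarith)
      exact mul_le_mul hhle h5 (by positivity) (by linarith)
    have h5 : 2.77 ≤ x * y := by nlinarith
    nlinarith
  · intro hkt
    set m : ℕ := Nat.log 2 t / 2 with hm
    have hlog : Nat.log 2 t ≥ 4 := Nat.le_log_of_pow_le (by norm_num) (by norm_num; exact ht)
    have hm2 : 2 ≤ m := by omega
    have h2m : 2 ^ (2 * m) ≤ t := by
      calc 2 ^ (2 * m) ≤ 2 ^ Nat.log 2 t := Nat.pow_le_pow_right (by norm_num) (by omega)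
        _ ≤ t := Nat.pow_log_le_self 2 (by omega)
    have ht2 : t < 2 ^ (2 * m + 2) := by
      calc t < 2 ^ (Nat.log 2 t + 1) := Nat.lt_pow_succ_log_self (by norm_num) _
        _ ≤ 2 ^ (2 * m + 2) := Nat.pow_le_pow_right (by norm_num) (by omega)
    have hmx : (2 * (m : ℝ)) * log 2 ≤ x := by
      have h1 : ((2 : ℝ) ^ (2 * m)) ≤ t := by exact_mod_cast h2m
      have h2 := log_le_log (by positivity) h1
      rw [log_pow] at h2
      push_cast at h2
      exact h2
    have hxm : x ≤ (2 * (m : ℝ) + 2) * log 2 := by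
      have h1 : (t : ℝ) ≤ (2 : ℝ) ^ (2 * m + 2) := by exact_mod_cast ht2.le
      have h2 := log_le_log (by linarith) h1
      rw [log_pow] at h2
      push_cast at h2
      exact h2
    have hmr : (2 : ℝ) ≤ m := by exact_mod_cast hm2
    have h2mle : 2 * (m : ℝ) ≤ 1.5 * x := by nlinarith
    have hk7 : 7 ≤ k := by exact_mod_cast hkr
    have hmk : 2 * m + 1 ≤ k - 1 := by
      have : (2 * (m : ℝ) + 2) ≤ k := by linarith
      have h3 : 2 * m + 2 ≤ k := by exact_mod_cast this
      omega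
    set h : ℕ := Nat.log (2 * m + 1) (k - 1) with hh
    have hh1 : 1 ≤ h := Nat.le_log_of_pow_le (by omega) (by rw [pow_one]; exact hmk)
    have hple : (2 * m + 1) ^ h ≤ k - 1 := Nat.pow_log_le_self _ (by omega)
    have hplt : k - 1 < (2 * m + 1) ^ (h + 1) := Nat.lt_pow_succ_log_self (by omega) _
    obtain ⟨n, G, hn, g2, g3, g4⟩ := powerG m (by omega) 1 le_rfl h
    rw [mul_one] at hn g2 g3
    have hk1r : ((k - 1 : ℕ) : ℝ) = (k : ℝ) - 1 := by
      rw [Nat.cast_sub (by omega), Nat.cast_one]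
    have hlm : 1 ≤ log (2 * (m : ℝ) + 1) := by
      rw [le_log_iff_exp_le (by linarith)]
      have := exp_one_lt_d9
      linarith
    have hhr : (1 : ℝ) ≤ h := by exact_mod_cast hh1
    -- bounds for h
    have hhub : (h : ℝ) ≤ log k := by
      have h1 : ((2 * (m : ℝ) + 1)) ^ h ≤ k := by
        have : (((2 * m + 1) ^ h : ℕ) : ℝ) ≤ ((k - 1 : ℕ) : ℝ) := by exact_mod_cast hple
        push_cast at this
        rw [hk1r] at this
        linarith
      have h2 := log_le_log (by positivity) h1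
      rw [log_pow] at h2
      nlinarith
    have hhlb : log k ≤ 4 * h * log (2 * (m : ℝ) + 1) := by
      have h1 : (k : ℝ) - 1 ≤ (2 * (m : ℝ) + 1) ^ (h + 1) := by
        have : (((k - 1 : ℕ)) : ℝ) ≤ (((2 * m + 1) ^ (h + 1) : ℕ) : ℝ) := by exact_mod_cast hplt.le
        push_cast at this
        rw [hk1r] at this
        exact this
      have h2 := log_le_log (by linarith) h1
      rw [log_pow] at h2
      push_cast at h2
      have h3 : log k ≤ 2 * log ((k : ℝ) - 1) := by
        have h4 : (k : ℝ) ≤ ((k : ℝ) - 1) ^ 2 := by nlinarith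
        have h5 := log_le_log (by linarith) h4
        rw [log_pow] at h5
        exact_mod_cast h5
      have h6 : ((h : ℝ) + 1) * log (2 * (m : ℝ) + 1) ≤ (2 * h) * log (2 * (m : ℝ) + 1) :=
        mul_le_mul_of_nonneg_right (by linarith) (by linarith)
      linarith
    have hlmx : log (2 * (m : ℝ) + 1) ≤ 2 * log x := by
      have h1 : 2 * (m : ℝ) + 1 ≤ x ^ 2 := by nlinarith
      have h2 := log_le_log (by linarith) h1
      rw [log_pow] at h2
      exact_mod_cast h2
    have hyh : y ≤ 8 * h := by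
      rw [hy, div_le_iff₀ (by linarith)]
      have : 4 * (h : ℝ) * log (2 * (m : ℝ) + 1) ≤ 4 * h * (2 * log x) :=
        mul_le_mul_of_nonneg_left hlmx (by positivity)
      linarith
    refine ⟨n, G, ?_, g2.mono (by omega), g3.mono (by omega), ?_⟩
    · intro v
      refine (g4 v).trans ?_
      have h1 : ((h : ℝ) * 2 ^ m) ^ 2 ≤ (t : ℝ) ^ 2 := by
        have h2 : ((2 : ℝ) ^ m) ^ 2 ≤ t := by
          rw [← pow_mul, mul_comm m 2]
          exact_mod_cast h2m
        have h3 : (h : ℝ) ^ 2 ≤ t := by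
          have : (h : ℝ) ^ 2 ≤ (log k) ^ 2 := pow_le_pow_left₀ (by linarith) hhub 2
          linarith
        calc ((h : ℝ) * 2 ^ m) ^ 2 = (h : ℝ) ^ 2 * ((2 : ℝ) ^ m) ^ 2 := by ring
          _ ≤ (t : ℝ) * t := mul_le_mul h3 h2 (by positivity) (by linarith)
          _ = (t : ℝ) ^ 2 := by ring
      have h4 := (pow_le_pow_iff_left₀ (by positivity) (by linarith) (by norm_num)).1 h1
      exact_mod_cast h4
    · have h1 : log n = h * (m * log 2) := by
        rw [hn]
        push_cast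
        rw [log_pow, log_pow]
      have h2 : x ≤ 3 * (m * log 2) := by nlinarith
      rw [h1]
      have h3 : x * y ≤ (3 * (m * log 2)) * (8 * h) :=
        mul_le_mul h2 hyh (by linarith) (by positivity)
      linarith

end Pool.Agent.Q274.IV
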