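import Mathlib

/-!
# Changes of the colour when one vertex moves: definitions
-/

set_option autoImplicit false

namespace Pool.Agent.Q274.IV

open Finset

/-- The number of changes of the colour `c (A ∪ {z})` when `z` moves through the gap of `A` with
exactly `g` elements of `A` below: the number of `z` with `z + 1 < N`, `z, z + 1 ∉ A`, exactly `g`
elements of `A` smaller than `z`, and `c (A ∪ {z}) ≠ c (A ∪ {z + 1})`. -/
noncomputable def gapChanges {κ : Type} (N : ℕ) (c : Finset ℕ → κ) (A : Finset ℕ) (g : ℕ) : ℕ :=
  open Classical in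
  ((range N).filter (fun z => (z + 1 < N ∧ z ∉ A ∧ z + 1 ∉ A ∧ (A.filter (fun a => a < z)).card = g) ∧
    c (insert z A) ≠ c (insert (z + 1) A))).card

/-- The number of changes of the colour `c (A ∪ {z})` in all gaps of `A` together. -/
noncomputable def allChanges {κ : Type} (N : ℕ) (c : Finset ℕ → κ) (A : Finset ℕ) : ℕ :=
  open Classical in
  ((range N).filter (fun z => (z + 1 < N ∧ z ∉ A ∧ z + 1 ∉ A) ∧
    c (insert z A) ≠ c (insert (z + 1) A))).card

end Pool.Agent.Q274.IV
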