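import Pool.Agent.Q274.IV.Hyper

/-!
# Colourings of `r`-sets in which the colour changes seldom when one vertex moves: theorems
-/

set_option autoImplicit false

namespace Pool.Agent.Q274.IV

open Finset Real Pool.Agent.TH138.NF Pool.Agent.Y424.LK

theorem upperH (q h : ℕ) (hq : 2 ≤ q) : ∃ C : ℝ, 0 < C ∧ ∀ (κ : Type) [Fintype κ],
    Fintype.card κ = q → ∀ s N n T : ℕ, 1 ≤ n →
    tow (s + 1) (2 * h * logb 2 ((T : ℝ) + 1) + C * (n : ℝ) ^ ((q : ℝ) / (2 * (h + 1))) +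
      q * ((s : ℝ) + 2) ^ 2) ≤ N → ∀ c : Finset ℕ → κ,
    (∀ A ⊆ range N, A.card = s + 1 → gapChanges N c A 0 ≤ T ∨ gapChanges N c A 1 ≤ T) →
    ∃ H ⊆ range N, H.card = n ∧ Homogeneous (s + 2) c H := by
  have hqr : (2 : ℝ) ≤ q := by exact_mod_cast hq
  set K : ℝ := 16 * 32 ^ q with hK
  have hK1 : 1 ≤ K := by
    have : (1 : ℝ) ≤ 32 ^ q := one_le_pow₀ (by norm_num)
    rw [hK]
    linarith
  set C1 : ℝ := 2 * ((9 * (q : ℝ) ^ 2 * h + (q : ℝ) ^ 2) * (2 * K) + 2) with hC1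
  have hC1pos : 0 < C1 := by positivity
  refine ⟨2 * C1 + 2, by linarith, ?_⟩
  intro κ _ hκ s N n T hn hN c hT
  by_contra hcon
  push Not at hcon
  have hnr : (1 : ℝ) ≤ n := by exact_mod_cast hn
  set x : ℝ := (n : ℝ) ^ ((q : ℝ) / (2 * (h + 1))) with hx
  have hx1 : 1 ≤ x := one_le_rpow hnr (by positivity)
  have hxpow : x ^ (2 * (h + 1)) = (n : ℝ) ^ q := by
    rw [hx, ← rpow_natCast, ← rpow_mul (by linarith)]
    push_cast
    rw [div_mul_cancel₀ _ (by positivity), rpow_natCast]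
  have hT0 : (0 : ℝ) ≤ T := Nat.cast_nonneg T
  have hlogT : 0 ≤ logb 2 ((T : ℝ) + 1) := logb_nonneg (by norm_num) (by linarith)
  set p : ℕ := ⌈K * x⌉₊ with hp
  have hKx : 1 ≤ K * x := by nlinarith
  have hp1 : 1 ≤ p := Nat.ceil_pos.2 (by linarith)
  have hpge : K * x ≤ p := Nat.le_ceil _
  have hple : (p : ℝ) ≤ 2 * K * x := by
    have := Nat.ceil_lt_add_one (show (0 : ℝ) ≤ K * x by linarith)
    linarith
  set Y : ℕ := ⌈h * logb 2 ((T : ℝ) + 1) + C1 * x⌉₊ with hY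
  have hYge : h * logb 2 ((T : ℝ) + 1) + C1 * x ≤ Y := Nat.le_ceil _
  have hYle : (Y : ℝ) ≤ h * logb 2 ((T : ℝ) + 1) + C1 * x + 1 :=
    (Nat.ceil_lt_add_one (by positivity)).le
  have hN' : twr (s + 1) (2 * Y + Fintype.card κ * (s + 2) ^ 2) ≤ N := by
    have h1 : ((twr (s + 1) (2 * Y + Fintype.card κ * (s + 2) ^ 2) : ℕ) : ℝ) ≤ N := by
      rw [twr_cast]
      refine (tow_mono (s + 1) ?_).trans hN
      rw [hκ]
      push_cast
      have : 2 * (Y : ℝ) ≤ 2 * h * logb 2 ((T : ℝ) + 1) + (2 * C1 + 2) * x := by nlinarith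
      linarith
    exact_mod_cast h1
  have h2Y : (((T : ℝ) + 1) * exp (9 * (Fintype.card κ : ℝ) ^ 2 * p)) ^ h *
      (4 * exp ((Fintype.card κ : ℝ) ^ 2 * (p : ℝ))) ≤ 2 ^ Y := by
    rw [hκ]
    have h1 : (2 : ℝ) ^ (h * logb 2 ((T : ℝ) + 1) + C1 * x) ≤ 2 ^ Y := by
      rw [← rpow_natCast]
      exact rpow_le_rpow_of_exponent_le (by norm_num) hYge
    refine le_trans ?_ h1
    rw [rpow_add (by norm_num), mul_comm (h : ℝ) (logb 2 ((T : ℝ) + 1)),
      rpow_mul (by norm_num), rpow_logb (by norm_num) (by norm_num) (by linarith), rpow_natCast,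
      mul_pow, mul_assoc]
    apply mul_le_mul_of_nonneg_left _ (by positivity)
    have h2 : (4 : ℝ) ≤ exp 2 := by
      calc (4 : ℝ) = 2 * 2 := by norm_num
        _ ≤ exp 1 * exp 1 := by
          have := exp_one_gt_d9
          apply mul_le_mul <;> linarith
        _ = exp (1 + 1) := (exp_add _ _).symm
        _ = exp 2 := by norm_num
    calc exp (9 * (q : ℝ) ^ 2 * p) ^ h * (4 * exp ((q : ℝ) ^ 2 * p))
        ≤ exp (9 * (q : ℝ) ^ 2 * p) ^ h * (exp 2 * exp ((q : ℝ) ^ 2 * p)) := by gcongr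
      _ = exp (h * (9 * (q : ℝ) ^ 2 * p) + (2 + (q : ℝ) ^ 2 * p)) := by
          rw [← exp_nat_mul, ← exp_add, ← exp_add]
      _ ≤ exp (log 2 * (C1 * x)) := by
          apply exp_le_exp.2
          have h3 : (0.5 : ℝ) ≤ log 2 := by
            have := log_two_gt_d9
            linarith
          have h4 : h * (9 * (q : ℝ) ^ 2 * p) + (2 + (q : ℝ) ^ 2 * p) ≤
              ((9 * (q : ℝ) ^ 2 * h + (q : ℝ) ^ 2) * (2 * K) + 2) * x := by
            have h5 : (9 * (q : ℝ) ^ 2 * h + (q : ℝ) ^ 2) * p ≤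
                (9 * (q : ℝ) ^ 2 * h + (q : ℝ) ^ 2) * (2 * K * x) :=
              mul_le_mul_of_nonneg_left hple (by positivity)
            nlinarith
          have h6 : 0 ≤ ((9 * (q : ℝ) ^ 2 * h + (q : ℝ) ^ 2) * (2 * K) + 2) * x := by positivity
          rw [hC1]
          nlinarith
      _ = (2 : ℝ) ^ (C1 * x) := by
          rw [rpow_def_of_pos (by norm_num)]
  have hfin := hyper_bound κ (by omega) s Y n N T hN' c hT hcon h p hp1 p (Nat.cast_nonneg _) h2Y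
  rw [hκ, ← hK] at hfin
  have h3 : x ^ 2 ≤ (p : ℝ) ^ 2 / K := by
    rw [le_div_iff₀ (by linarith)]
    have h4 : (K * x) ^ 2 ≤ (p : ℝ) ^ 2 := pow_le_pow_left₀ (by positivity) hpge 2
    have h5 : x ^ 2 * K ≤ (K * x) ^ 2 := by
      have : 0 ≤ x ^ 2 * K * (K - 1) := by
        have : 0 ≤ K - 1 := by linarith
        positivity
      nlinarith
    linarith
  have h4 : x ^ 2 ≤ (p : ℝ) ^ 2 := by
    refine h3.trans (div_le_self (by positivity) hK1)
  have h5 : (n : ℝ) ^ q ≤ ((p : ℝ) ^ 2 / K) ^ h * (p : ℝ) ^ 2 := by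
    rw [← hxpow, mul_add, pow_add, pow_mul, mul_one]
    exact mul_le_mul (pow_le_pow_left₀ (by positivity) h3 h) h4 (by positivity) (by positivity)
  linarith

theorem structH (q : ℕ) (hq : 2 ≤ q) (s : ℕ) (ε : ℝ) (hε : 0 < ε) : ∃ n₀ : ℕ,
    ∀ (κ : Type) [Fintype κ], Fintype.card κ = q → ∀ n N : ℕ, n₀ ≤ n → tow (s + 1) (ε * n) ≤ N →
    ∀ c : Finset ℕ → κ, (∀ H ⊆ range N, H.card = n → ¬ Homogeneous (s + 2) c H) →
    ∃ A ⊆ range N, A.card = s + 1 ∧ (2 : ℝ) ^ (ε * n / (q + 1)) ≤ gapChanges N c A 0 ∧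
      (2 : ℝ) ^ (ε * n / (q + 1)) ≤ gapChanges N c A 1 := by
  have hqr : (2 : ℝ) ≤ q := by exact_mod_cast hq
  obtain ⟨C, hC, hup⟩ := upperH q (q / 2) hq
  set B : ℝ := 2 * C * (q + 1) / ε + 1 with hB
  have hB1 : 1 ≤ B := by
    have : 0 ≤ 2 * C * (q + 1) / ε := by positivity
    linarith
  obtain ⟨n1, hn1⟩ := exists_nat_gt (B ^ (q + 1))
  obtain ⟨n2, hn2⟩ := exists_nat_gt (((q : ℝ) + q * ((s : ℝ) + 2) ^ 2) / (ε / (2 * (q + 1))))
  refine ⟨max (max n1 n2) 1, ?_⟩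
  intro κ _ hκ n N hn hN c hc
  have hn1' : n1 ≤ n := (le_max_left _ _).trans ((le_max_left _ _).trans hn)
  have hn2' : n2 ≤ n := (le_max_right _ _).trans ((le_max_left _ _).trans hn)
  have hn3 : 1 ≤ n := (le_max_right _ _).trans hn
  have hnr : (1 : ℝ) ≤ n := by exact_mod_cast hn3
  by_contra hcon
  push Not at hcon
  set T : ℕ := ⌊(2 : ℝ) ^ (ε * n / (q + 1))⌋₊ with hT
  have hTle : (T : ℝ) ≤ (2 : ℝ) ^ (ε * n / (q + 1)) := Nat.floor_le (by positivity)
  have h1 : ∀ A ⊆ range N, A.card = s + 1 → gapChanges N c A 0 ≤ T ∨ gapChanges N c A 1 ≤ T := by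
    intro A hA hAc
    by_cases h2 : (2 : ℝ) ^ (ε * n / (q + 1)) ≤ gapChanges N c A 0
    · exact Or.inr (Nat.le_floor (hcon A hA hAc h2).le)
    · exact Or.inl (Nat.le_floor (not_le.1 h2).le)
  refine absurd (hup κ hκ s N n T hn3 ?_ c h1) (fun ⟨H, hH, hHc, hhom⟩ => hc H hH hHc hhom)
  refine (tow_mono (s + 1) ?_).trans hN
  have hE1 : (1 : ℝ) ≤ (2 : ℝ) ^ (ε * n / (q + 1)) := one_le_rpow (by norm_num) (by positivity)
  have hlog : logb 2 ((T : ℝ) + 1) ≤ 1 + ε * n / (q + 1) := by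
    have h2 : (T : ℝ) + 1 ≤ 2 * (2 : ℝ) ^ (ε * n / (q + 1)) := by linarith
    have h3 : (0 : ℝ) < (T : ℝ) + 1 := by positivity
    calc logb 2 ((T : ℝ) + 1) ≤ logb 2 (2 * (2 : ℝ) ^ (ε * n / (q + 1))) :=
          logb_le_logb_of_le (by norm_num) h3 h2
      _ = 1 + ε * n / (q + 1) := by
          rw [logb_mul (by norm_num) (by positivity), logb_self_eq_one (by norm_num),
            logb_rpow (by norm_num) (by norm_num)]
  have hlog0 : 0 ≤ logb 2 ((T : ℝ) + 1) := logb_nonneg (by norm_num) (by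
    have : (0 : ℝ) ≤ T := Nat.cast_nonneg T
    linarith)
  have h2h : 2 * ((q / 2 : ℕ) : ℝ) ≤ q := by
    have : 2 * (q / 2) ≤ q := Nat.mul_div_le q 2
    exact_mod_cast this
  have h2h' : (q : ℝ) + 1 ≤ 2 * (((q / 2 : ℕ) : ℝ) + 1) := by
    have : q + 1 ≤ 2 * (q / 2 + 1) := by omega
    exact_mod_cast this
  have hfirst : 2 * ((q / 2 : ℕ) : ℝ) * logb 2 ((T : ℝ) + 1) ≤ q + ε * n - ε * n / (q + 1) := by
    calc 2 * ((q / 2 : ℕ) : ℝ) * logb 2 ((T : ℝ) + 1) ≤ q * (1 + ε * n / (q + 1)) :=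
          mul_le_mul h2h hlog hlog0 (by linarith)
      _ = q + ε * n - ε * n / (q + 1) := by
          field_simp
          ring
  -- the middle term
  have hmid : C * (n : ℝ) ^ ((q : ℝ) / (2 * (((q / 2 : ℕ) : ℝ) + 1))) ≤ ε * n / (2 * (q + 1)) := by
    have h3 : (n : ℝ) ^ ((q : ℝ) / (2 * (((q / 2 : ℕ) : ℝ) + 1))) ≤
        (n : ℝ) ^ ((q : ℝ) / (q + 1)) := by
      apply rpow_le_rpow_of_exponent_le hnr
      apply div_le_div_of_nonneg_left (by linarith) (by linarith) h2h'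
    have h4 : B ≤ (n : ℝ) ^ ((1 : ℝ) / (q + 1)) := by
      have h5 : B ^ (q + 1) ≤ n := hn1.le.trans (by exact_mod_cast hn1')
      calc B = (B ^ (q + 1)) ^ ((1 : ℝ) / (q + 1)) := by
            rw [← rpow_natCast, ← rpow_mul (by linarith)]
            push_cast
            rw [mul_one_div, div_self (by positivity), rpow_one]
        _ ≤ (n : ℝ) ^ ((1 : ℝ) / (q + 1)) := rpow_le_rpow (by positivity) h5 (by positivity)
    have h5 : (n : ℝ) ^ ((q : ℝ) / (q + 1)) * B ≤ n := by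
      calc (n : ℝ) ^ ((q : ℝ) / (q + 1)) * B ≤
            (n : ℝ) ^ ((q : ℝ) / (q + 1)) * (n : ℝ) ^ ((1 : ℝ) / (q + 1)) :=
            mul_le_mul_of_nonneg_left h4 (by positivity)
        _ = n := by
            rw [← rpow_add (by linarith), ← add_div, div_self (by positivity), rpow_one]
    have h6 : 2 * C * (q + 1) / ε ≤ B := by linarith
    have h7 : (n : ℝ) ^ ((q : ℝ) / (q + 1)) * (2 * C * (q + 1) / ε) ≤ n :=
      (mul_le_mul_of_nonneg_left h6 (by positivity)).trans h5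
    have h8 : C * (n : ℝ) ^ ((q : ℝ) / (q + 1)) ≤ ε * n / (2 * (q + 1)) := by
      rw [le_div_iff₀ (by positivity)]
      have h9 : (n : ℝ) ^ ((q : ℝ) / (q + 1)) * (2 * C * (q + 1) / ε) =
          (C * (n : ℝ) ^ ((q : ℝ) / (q + 1)) * (2 * (q + 1))) / ε := by ring
      rw [h9, div_le_iff₀ hε] at h7
      linarith
    exact (mul_le_mul_of_nonneg_left h3 hC.le).trans h8
  have hlast : (q : ℝ) + q * ((s : ℝ) + 2) ^ 2 ≤ ε * n / (2 * (q + 1)) := by
    have h3 : ((q : ℝ) + q * ((s : ℝ) + 2) ^ 2) / (ε / (2 * (q + 1))) ≤ n :=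
      hn2.le.trans (by exact_mod_cast hn2')
    rw [div_le_iff₀ (by positivity)] at h3
    calc (q : ℝ) + q * ((s : ℝ) + 2) ^ 2 ≤ n * (ε / (2 * (q + 1))) := h3
      _ = ε * n / (2 * (q + 1)) := by ring
  have hsum : ε * n / (2 * (q + 1)) + ε * n / (2 * (q + 1)) = ε * n / (q + 1) := by
    field_simp
    ring
  linarith

/-! ### reversing the order -/

/-- the reflection -/
def rv (N x : ℕ) : ℕ := N - 1 - x

theorem rv_rv {N x : ℕ} (h : x < N) : rv N (rv N x) = x := by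
  unfold rv
  omega

theorem rv_image_image {N : ℕ} {A : Finset ℕ} (hA : A ⊆ range N) :
    (A.image (rv N)).image (rv N) = A := by
  ext x
  rw [image_image, mem_image]
  constructor
  · rintro ⟨y, hy, rfl⟩
    rw [Function.comp_apply, rv_rv (mem_range.1 (hA hy))]
    exact hy
  · intro hx
    exact ⟨x, hx, rv_rv (mem_range.1 (hA hx))⟩

theorem rv_card {N : ℕ} {A : Finset ℕ} (hA : A ⊆ range N) : (A.image (rv N)).card = A.card := by
  apply card_image_of_injOn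
  intro x hx y hy hxy
  have h1 := mem_range.1 (hA hx)
  have h2 := mem_range.1 (hA hy)
  have h3 : rv N x = rv N y := hxy
  unfold rv at h3
  omega

theorem rv_sub {N : ℕ} {A : Finset ℕ} (hA : A ⊆ range N) : A.image (rv N) ⊆ range N := by
  intro x hx
  obtain ⟨y, hy, rfl⟩ := mem_image.1 hx
  have := mem_range.1 (hA hy)
  rw [mem_range]
  unfold rv
  omega

theorem rv_gap {κ : Type} {N : ℕ} (c : Finset ℕ → κ) {A : Finset ℕ} (hA : A ⊆ range N) {g g' : ℕ}
    (hg : g + g' = A.card) :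
    gapChanges N (fun B => c (B.image (rv N))) A g ≤ gapChanges N c (A.image (rv N)) g' := by
  classical
  unfold gapChanges
  refine card_le_card_of_injOn (fun z => N - 2 - z) ?_ ?_
  · intro z hz
    obtain ⟨hzN, ⟨h1, h2, h3, h4⟩, h5⟩ := mem_filter.1 hz
    have hzz : N - 2 - z = rv N (z + 1) := by unfold rv; omega
    have hzz' : N - 2 - z + 1 = rv N z := by unfold rv; omega
    rw [mem_coe, mem_filter, mem_range]
    beta_reduce
    have hmem : ∀ x, x < N → (rv N x ∈ A.image (rv N) ↔ x ∈ A) := by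
      intro x hx
      rw [mem_image]
      constructor
      · rintro ⟨y, hy, hyx⟩
        have h6 := mem_range.1 (hA hy)
        have h7 : x = y := by
          unfold rv at hyx
          omega
        rw [h7]
        exact hy
      · exact fun h => ⟨x, h, rfl⟩
    refine ⟨by omega, ⟨by omega, ?_, ?_, ?_⟩, ?_⟩
    · rw [hzz, hmem _ h1]
      exact h3
    · rw [hzz', hmem _ (by omega)]
      exact h2
    · have h6 : (A.image (rv N)).filter (fun a => a < N - 2 - z) =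
          (A.filter (fun a => ¬ a < z)).image (rv N) := by
        ext x
        rw [mem_filter, mem_image, mem_image]
        constructor
        · rintro ⟨⟨y, hy, rfl⟩, h7⟩
          refine ⟨y, mem_filter.2 ⟨hy, ?_⟩, rfl⟩
          have h8 := mem_range.1 (hA hy)
          unfold rv at h7
          omega
        · rintro ⟨y, hy, rfl⟩
          rw [mem_filter] at hy
          refine ⟨⟨y, hy.1, rfl⟩, ?_⟩
          have h8 := mem_range.1 (hA hy.1)
          have h9 : y ≠ z := fun h => h2 (h ▸ hy.1)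
          have h10 : y ≠ z + 1 := fun h => h3 (h ▸ hy.1)
          have h11 := hy.2
          unfold rv
          omega
      rw [h6, rv_card ((filter_subset _ _).trans hA)]
      have h7 := card_filter_add_card_filter_not (s := A) (fun a => a < z)
      omega
    · rw [hzz', hzz, ← image_insert, ← image_insert]
      exact fun h => h5 h.symm
  · intro z hz z' hz' h
    obtain ⟨hzN, ⟨h1, -⟩, -⟩ := mem_filter.1 hz
    obtain ⟨hzN', ⟨h1', -⟩, -⟩ := mem_filter.1 hz'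
    have h2 : N - 2 - z = N - 2 - z' := h
    omega

theorem rv_hom {κ : Type} {N k n : ℕ} (c : Finset ℕ → κ)
    (hc : ∀ H ⊆ range N, H.card = n → ¬ Homogeneous k c H) :
    ∀ H ⊆ range N, H.card = n → ¬ Homogeneous k (fun B => c (B.image (rv N))) H := by
  intro H hH hHc hhom
  refine hc (H.image (rv N)) (rv_sub hH) (by rw [rv_card hH, hHc]) ?_
  intro A hA B hB hAc hBc
  have hA' : A ⊆ range N := hA.trans (rv_sub hH)
  have hB' : B ⊆ range N := hB.trans (rv_sub hH)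
  have h1 : ∀ A ⊆ H.image (rv N), A.image (rv N) ⊆ H := by
    intro A hA
    rw [← rv_image_image hH]
    exact image_subset_image hA
  have h2 := hhom (A.image (rv N)) (h1 A hA) (B.image (rv N)) (h1 B hB)
    (by rw [rv_card hA', hAc]) (by rw [rv_card hB', hBc])
  simp only at h2
  rw [rv_image_image hA', rv_image_image hB'] at h2
  exact h2

/-- All four end gaps. -/
theorem structH' (q : ℕ) (hq : 2 ≤ q) (s : ℕ) (ε : ℝ) (hε : 0 < ε) : ∃ n₀ : ℕ,
    ∀ (κ : Type) [Fintype κ], Fintype.card κ = q → ∀ n N : ℕ, n₀ ≤ n → tow (s + 1) (ε * n) ≤ N →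
    ∀ c : Finset ℕ → κ, (∀ H ⊆ range N, H.card = n → ¬ Homogeneous (s + 2) c H) →
    (∃ A ⊆ range N, A.card = s + 1 ∧ (2 : ℝ) ^ (ε * n / (q + 1)) ≤ gapChanges N c A 0 ∧
      (2 : ℝ) ^ (ε * n / (q + 1)) ≤ gapChanges N c A 1) ∧
    (∃ A ⊆ range N, A.card = s + 1 ∧ (2 : ℝ) ^ (ε * n / (q + 1)) ≤ gapChanges N c A s ∧
      (2 : ℝ) ^ (ε * n / (q + 1)) ≤ gapChanges N c A (s + 1)) := by
  obtain ⟨n₀, h⟩ := structH q hq s ε hε
  refine ⟨n₀, fun κ _ hκ n N hn hN c hc => ⟨h κ hκ n N hn hN c hc, ?_⟩⟩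
  obtain ⟨A, hA, hAc, h1, h2⟩ := h κ hκ n N hn hN (fun B => c (B.image (rv N))) (rv_hom c hc)
  refine ⟨A.image (rv N), rv_sub hA, by rw [rv_card hA, hAc], ?_, ?_⟩
  · refine h2.trans ?_
    exact_mod_cast rv_gap c hA (g := 1) (g' := s) (by omega)
  · refine h1.trans ?_
    exact_mod_cast rv_gap c hA (g := 0) (g' := s + 1) (by omega)

end Pool.Agent.Q274.IV
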