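import Pool.Agent.Q274.IV.Level
import Pool.Agent.Q274.IV.HDefs
import Pool.Agent.Y424.LK.QLink

/-!
# Colourings of `r`-sets in which the colour changes seldom when one vertex moves
-/

set_option autoImplicit false

namespace Pool.Agent.Q274.IV

open Finset Real Pool.Agent.TH138.NF Pool.Agent.Y424.LK

/-- the link of `S` -/
def lk2 {κ : Type} (c : Finset ℕ → κ) (S : Finset ℕ) (x y : ℕ) : κ := c (insert x (insert y S))

theorem lk2_comm {κ : Type} (c : Finset ℕ → κ) (S : Finset ℕ) (x y : ℕ) :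
    lk2 c S x y = lk2 c S y x := by
  unfold lk2
  rw [Finset.insert_comm]

theorem walk {κ : Type} (f : ℕ → κ) (x : ℕ) : ∀ k : ℕ, (∀ e, x ≤ e → e < x + k → f e = f (e + 1)) →
    f x = f (x + k) := by
  intro k
  induction k with
  | zero => intro _; rfl
  | succ k ih =>
    intro h
    rw [ih (fun e h1 h2 => h e h1 (by omega))]
    exact h (x + k) (by omega) (by omega)

theorem few_up {κ : Type} (c : Finset ℕ → κ) (N T : ℕ) (U S : Finset ℕ) (hU : U ⊆ range N)
    (hUS : ∀ u ∈ U, ∀ w ∈ S, u < w) :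
    Few (lk2 c S) T (U.filter (fun u => gapChanges N c (insert u S) 1 ≤ T)) := by
  classical
  intro y hy
  obtain ⟨hyU, hyT⟩ := mem_filter.1 hy
  refine ⟨_, hyT, ?_⟩
  intro z hz z' hz' hyz hzz h
  obtain ⟨hzU, -⟩ := mem_filter.1 hz
  obtain ⟨hzU', -⟩ := mem_filter.1 hz'
  have e1 : lk2 c S y z = c (insert z (insert y S)) := lk2_comm c S y z
  have e2 : lk2 c S y z' = c (insert z' (insert y S)) := lk2_comm c S y z'
  rw [e1, e2]
  have h1 := walk (fun e => c (insert e (insert y S))) z (z' - z) (fun e he1 he2 => ?_)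
  · have h2 : z + (z' - z) = z' := by omega
    rw [h2] at h1
    exact h1
  · by_contra hcon
    have hzN : z' < N := mem_range.1 (hU hzU')
    refine h e ?_ ⟨he1, by omega⟩
    rw [mem_filter, mem_range]
    refine ⟨by omega, ⟨by omega, ?_, ?_, ?_⟩, hcon⟩
    · rw [mem_insert, not_or]
      refine ⟨by omega, fun hS => ?_⟩
      have := hUS z' hzU' e hS
      omega
    · rw [mem_insert, not_or]
      refine ⟨by omega, fun hS => ?_⟩
      have := hUS z' hzU' (e + 1) hS
      omega
    · have : (insert y S).filter (fun a => a < e) = {y} := by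
        ext a
        simp only [mem_filter, mem_insert, mem_singleton]
        constructor
        · rintro ⟨rfl | ha, h3⟩
          · rfl
          · have := hUS z' hzU' a ha
            omega
        · rintro rfl
          exact ⟨Or.inl rfl, by omega⟩
      rw [this, card_singleton]

theorem few_down {κ : Type} (c : Finset ℕ → κ) (N T : ℕ) (U S : Finset ℕ) (hU : U ⊆ range N)
    (hUS : ∀ u ∈ U, ∀ w ∈ S, u < w) :
    Few (α := ℕᵒᵈ) (fun x y => lk2 c S (OrderDual.ofDual x) (OrderDual.ofDual y)) T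
      ((U.filter (fun u => gapChanges N c (insert u S) 0 ≤ T)).map OrderDual.toDual.toEmbedding) := by
  classical
  intro y hy
  rw [mem_map] at hy
  obtain ⟨y, hy, rfl⟩ := hy
  obtain ⟨hyU, hyT⟩ := mem_filter.1 hy
  refine ⟨((range N).filter (fun z => (z + 1 < N ∧ z ∉ insert y S ∧ z + 1 ∉ insert y S ∧
      ((insert y S).filter (fun a => a < z)).card = 0) ∧
    c (insert z (insert y S)) ≠ c (insert (z + 1) (insert y S)))).map
      OrderDual.toDual.toEmbedding, ?_, ?_⟩
  · rw [card_map]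
    exact hyT
  intro z hz z' hz' hyz hzz h
  rw [mem_map] at hz hz'
  obtain ⟨z, hz, rfl⟩ := hz
  obtain ⟨z', hz', rfl⟩ := hz'
  obtain ⟨hzU, -⟩ := mem_filter.1 hz
  obtain ⟨hzU', -⟩ := mem_filter.1 hz'
  have hyz' : z < y := hyz
  have hzz' : z' < z := hzz
  have e1 : lk2 c S y z = c (insert z (insert y S)) := lk2_comm c S y z
  have e2 : lk2 c S y z' = c (insert z' (insert y S)) := lk2_comm c S y z'
  show lk2 c S y z = lk2 c S y z'
  rw [e1, e2]
  have h1 := walk (fun e => c (insert e (insert y S))) z' (z - z') (fun e he1 he2 => ?_)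
  · have h2 : z' + (z - z') = z := by omega
    rw [h2] at h1
    exact h1.symm
  · by_contra hcon
    have hyN : y < N := mem_range.1 (hU hyU)
    refine h (OrderDual.toDual e) ?_ ⟨?_, ?_⟩
    · rw [mem_map]
      refine ⟨e, ?_, rfl⟩
      rw [mem_filter, mem_range]
      refine ⟨by omega, ⟨by omega, ?_, ?_, ?_⟩, hcon⟩
      · rw [mem_insert, not_or]
        refine ⟨by omega, fun hS => ?_⟩
        have := hUS y hyU e hS
        omega
      · rw [mem_insert, not_or]
        refine ⟨by omega, fun hS => ?_⟩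
        have := hUS y hyU (e + 1) hS
        omega
      · rw [card_eq_zero]
        apply filter_false_of_mem
        intro a ha
        rw [mem_insert] at ha
        rcases ha with rfl | ha
        · omega
        · have := hUS y hyU a ha
          omega
    · show e ≤ z
      omega
    · show z' ≤ e
      exact he1

/-- Sets homogeneous in the link have less than `n` elements. -/
theorem hn_lt_of {κ : Type} {s n N : ℕ} {c : Finset ℕ → κ}
    (hc : ∀ H ⊆ range N, H.card = n → ¬ Homogeneous (s + 2) c H) {U S : Finset ℕ}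
    (hU : U ⊆ range N) (hL : LinkOn s c U S) (b : κ) (A : Finset ℕ) (hA : A ⊆ U)
    (hhom : ∀ x ∈ A, ∀ y ∈ A, x < y → lk2 c S x y = b) : A.card < n := by
  by_contra hcon
  push Not at hcon
  obtain ⟨H, hH, hHc⟩ := exists_subset_card_eq hcon
  refine hc H ((hH.trans hA).trans hU) hHc ?_
  have h1 := homQ hL (hH.trans hA) b (fun x hx y hy hxy => hhom x (hH hx) y (hH hy) hxy)
  intro B hB B' hB' h2 h3
  rw [h1 B hB h2, h1 B' hB' h3]

/-- The basic inequality. -/
theorem hyper_bound (κ : Type) [Fintype κ] (hq : 2 ≤ Fintype.card κ) (s Y n N T : ℕ)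
    (hN : twr (s + 1) (2 * Y + Fintype.card κ * (s + 2) ^ 2) ≤ N) (c : Finset ℕ → κ)
    (hT : ∀ A ⊆ range N, A.card = s + 1 → gapChanges N c A 0 ≤ T ∨ gapChanges N c A 1 ≤ T)
    (hc : ∀ H ⊆ range N, H.card = n → ¬ Homogeneous (s + 2) c H)
    (h p : ℕ) (hp : 1 ≤ p) (w : ℝ) (hw : 0 ≤ w)
    (hY : (((T : ℝ) + 1) * exp (9 * (Fintype.card κ : ℝ) ^ 2 * p)) ^ h *
      (4 * exp ((Fintype.card κ : ℝ) ^ 2 * w)) ≤ 2 ^ Y) :
    ((p : ℝ) ^ 2 / (16 * 32 ^ Fintype.card κ)) ^ h * w ^ 2 < (n : ℝ) ^ Fintype.card κ := by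
  classical
  obtain ⟨U, hU, S, hS, hUc, hSc, hUS, hL⟩ := linkQ κ (2 ^ Y) s (range N)
    (by
      rw [card_range]
      exact (NQ_le _ (Fintype.card κ) (by omega) Nat.lt_two_pow_self.le Y s).trans hN) c
  set V1 := U.filter (fun u => gapChanges N c (insert u S) 1 ≤ T) with hV1
  set V2 := U.filter (fun u => gapChanges N c (insert u S) 0 ≤ T) with hV2
  have hcov : 2 ^ Y ≤ V1.card + V2.card := by
    rw [← hUc]
    have h3 : U ⊆ V1 ∪ V2 := by
      intro v hv
      rw [mem_union, hV1, hV2, mem_filter, mem_filter]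
      have hvS : v ∉ S := fun h => absurd (hUS v hv v h) (lt_irrefl _)
      rcases hT (insert v S) (insert_subset (hU hv) hS) (by
        rw [card_insert_of_notMem hvS, hSc]) with h4 | h4
      · exact Or.inr ⟨hv, h4⟩
      · exact Or.inl ⟨hv, h4⟩
    exact (card_le_card h3).trans (card_union_le _ _)
  have hcov' : (2 : ℝ) ^ Y ≤ V1.card + V2.card := by exact_mod_cast hcov
  have hcard : ∀ (a : κ → ℕ), (∀ b, a b < n) →
      ∏ b, (a b : ℝ) < (n : ℝ) ^ Fintype.card κ := by
    intro a ha
    have hκ : Nonempty κ := Fintype.card_pos_iff.1 (by omega)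
    have hn1 : 1 ≤ n := by
      obtain ⟨b⟩ := hκ
      have := ha b
      omega
    calc ∏ b, (a b : ℝ) ≤ ∏ _b : κ, ((n : ℝ) - 1) := by
          refine prod_le_prod (fun _ _ => Nat.cast_nonneg _) (fun b _ => ?_)
          have : (a b : ℝ) + 1 ≤ n := by exact_mod_cast ha b
          linarith
      _ = ((n : ℝ) - 1) ^ Fintype.card κ := by rw [prod_const, card_univ]
      _ < (n : ℝ) ^ Fintype.card κ := by
          have : (1 : ℝ) ≤ n := by exact_mod_cast hn1
          exact pow_lt_pow_left₀ (by linarith) (by linarith) (by omega)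
  rcases le_total V1.card V2.card with hle | hle
  · have hle' : (V1.card : ℝ) ≤ V2.card := by exact_mod_cast hle
    refine (main hq (few_down c N T U S hU hUS) h p hp w hw ?_).trans_lt ?_
    · rw [card_map]
      have : (((T : ℝ) + 1) * exp (9 * (Fintype.card κ : ℝ) ^ 2 * p)) ^ h *
        (4 * exp ((Fintype.card κ : ℝ) ^ 2 * w)) =
        2 * ((((T : ℝ) + 1) * exp (9 * (Fintype.card κ : ℝ) ^ 2 * p)) ^ h *
        (2 * exp ((Fintype.card κ : ℝ) ^ 2 * w))) := by ring
      linarith
    · refine hcard _ (fun b => ?_)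
      obtain ⟨A, hA1, hA2, hA3⟩ := exists_hn
        (fun x y : ℕᵒᵈ => lk2 c S (OrderDual.ofDual x) (OrderDual.ofDual y)) b
        (V2.map OrderDual.toDual.toEmbedding)
      rw [← hA3]
      have h4 : (A.map OrderDual.ofDual.toEmbedding).card = A.card := card_map _
      rw [← h4]
      refine hn_lt_of hc hU hL b _ ?_ ?_
      · intro x hx
        obtain ⟨x', hx', rfl⟩ := mem_map.1 hx
        obtain ⟨x'', hx'', rfl⟩ := mem_map.1 (hA1 hx')
        exact (mem_filter.1 hx'').1
      · intro x hx y hy hxy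
        obtain ⟨x', hx', rfl⟩ := mem_map.1 hx
        obtain ⟨y', hy', rfl⟩ := mem_map.1 hy
        rw [lk2_comm]
        exact hA2 y' hy' x' hx' hxy
  · have hle' : (V2.card : ℝ) ≤ V1.card := by exact_mod_cast hle
    refine (main hq (few_up c N T U S hU hUS) h p hp w hw ?_).trans_lt ?_
    · have : (((T : ℝ) + 1) * exp (9 * (Fintype.card κ : ℝ) ^ 2 * p)) ^ h *
        (4 * exp ((Fintype.card κ : ℝ) ^ 2 * w)) =
        2 * ((((T : ℝ) + 1) * exp (9 * (Fintype.card κ : ℝ) ^ 2 * p)) ^ h *
        (2 * exp ((Fintype.card κ : ℝ) ^ 2 * w))) := by ring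
      linarith
    · refine hcard _ (fun b => ?_)
      obtain ⟨A, hA1, hA2, hA3⟩ := exists_hn (lk2 c S) b V1
      rw [← hA3]
      exact hn_lt_of hc hU hL b A (hA1.trans (filter_subset _ _)) hA2

end Pool.Agent.Q274.IV
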