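import Pool.Agent.Q274.IV.Chain

/-!
# The product of the sizes of the largest homogeneous sets
-/

namespace Pool.Agent.Q274.IV

open Finset Real

variable {α : Type*} [LinearOrder α] {κ : Type*} [Fintype κ]

/-- The product over the colours of the largest sizes of homogeneous subsets of `W`. -/
noncomputable def phi (c : α → α → κ) (W : Finset α) : ℝ := ∏ b, (hn c b W : ℝ)

/-- The product is at least `P` for every subset of size at least `m`. -/
def Good (c : α → α → κ) (U : Finset α) (P m : ℝ) : Prop :=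
  ∀ W ⊆ U, m ≤ (W.card : ℝ) → P ≤ phi c W

theorem phi_nonneg (c : α → α → κ) (W : Finset α) : 0 ≤ phi c W :=
  prod_nonneg (fun _ _ => Nat.cast_nonneg _)

theorem phi_mono {c : α → α → κ} {W W' : Finset α} (h : W ⊆ W') : phi c W ≤ phi c W' :=
  prod_le_prod (fun _ _ => Nat.cast_nonneg _) (fun _ _ => Nat.cast_le.2 (hn_mono h))

theorem ratio [DecidableEq κ] {c : α → α → κ} {X Y : Finset α} (h : X ⊆ Y) (hX : X.Nonempty)
    {K : ℝ} (hK : phi c Y ≤ K * phi c X) (b : κ) : (hn c b Y : ℝ) ≤ K * hn c b X := by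
  unfold phi at hK
  rw [← mul_prod_erase univ _ (mem_univ b), ← mul_prod_erase univ (fun b => (hn c b X : ℝ))
    (mem_univ b)] at hK
  set R := ∏ b' ∈ univ.erase b, (hn c b' X : ℝ) with hR
  have hRpos : 0 < R := prod_pos (fun b' _ => by
    have := one_le_hn (c := c) (b := b') hX
    exact_mod_cast (by omega : 0 < hn c b' X))
  have h1 : R ≤ ∏ b' ∈ univ.erase b, (hn c b' Y : ℝ) :=
    prod_le_prod (fun _ _ => Nat.cast_nonneg _) (fun _ _ => Nat.cast_le.2 (hn_mono h))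
  have h2 : (hn c b Y : ℝ) * R ≤ K * hn c b X * R := by
    calc (hn c b Y : ℝ) * R ≤ hn c b Y * ∏ b' ∈ univ.erase b, (hn c b' Y : ℝ) :=
          mul_le_mul_of_nonneg_left h1 (Nat.cast_nonneg _)
      _ ≤ K * (hn c b X * R) := hK
      _ = K * hn c b X * R := by ring
  exact le_of_mul_le_mul_right h2 hRpos

theorem split_nonempty : Split κ (fun _ (Y : Finset α) => Y.Nonempty) where
  mono := fun _ _ _ _ h => h
  split := by
    intro v _ _ V Y T hY hT
    obtain ⟨y, hy⟩ := hY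
    obtain ⟨b, hb⟩ := hT y hy
    exact ⟨b, y, hb⟩

theorem split_card (A D : ℝ) (hA : 0 ≤ A) (hD : 0 ≤ D) :
    Split κ (fun V (Y : Finset α) => A * V ≤ D * (Y.card : ℝ)) where
  mono := fun V V' Y h hY => (mul_le_mul_of_nonneg_left h hA).trans hY
  split := by
    classical
    intro v hv hv1 V Y T hY hT
    by_contra hcon
    push Not at hcon
    have hκ : Nonempty κ := by
      by_contra h
      rw [not_nonempty_iff] at h
      simp at hv1
    have h1 : ∑ b, D * ((T b).card : ℝ) < ∑ b, A * (V / v b) :=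
      sum_lt_sum_of_nonempty univ_nonempty (fun b _ => hcon b)
    have h2 : ∑ b, A * (V / v b) = A * V := by
      have : ∀ b, A * (V / v b) = A * V * (v b)⁻¹ := fun b => by rw [div_eq_mul_inv]; ring
      rw [sum_congr rfl (fun b _ => this b), ← mul_sum, hv1, mul_one]
    have h3 : (Y.card : ℝ) ≤ ∑ b, ((T b).card : ℝ) := by
      have h4 : Y ⊆ univ.biUnion T := by
        intro y hy
        obtain ⟨b, hb⟩ := hT y hy
        exact mem_biUnion.2 ⟨b, mem_univ b, hb⟩
      have h5 := (card_le_card h4).trans card_biUnion_le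
      exact_mod_cast h5
    rw [h2, ← mul_sum] at h1
    have := mul_le_mul_of_nonneg_left h3 hD
    linarith

theorem base [DecidableEq κ] (hq : 2 ≤ Fintype.card κ) (c : α → α → κ) (U : Finset α) (w : ℝ)
    (hw : 0 ≤ w) : Good c U (w ^ 2) (2 * exp ((Fintype.card κ : ℝ) ^ 2 * w)) := by
  intro W _ hWc
  obtain ⟨B, hB, hlt⟩ := blocks W W.card 1 (by rw [mul_one])
  obtain ⟨a, ha, hprod⟩ := chains (Big := fun _ _ Y => Y.Nonempty) (fun _ => split_nonempty) hq c
    B B (range W.card) (by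
      intro i _ j hj _ y _ z hz z' hz'
      have h1 := (hB j (mem_range.1 hj)).2
      rw [card_eq_one] at h1
      obtain ⟨x, hx⟩ := h1
      rw [hx, mem_singleton] at hz hz'
      rw [hz, hz']) w hw (by rw [card_range]; linarith) (by
      intro i hi
      rw [← card_pos, (hB i (mem_range.1 hi)).2]
      exact one_pos)
  refine hprod.trans (prod_le_prod (fun _ _ => Nat.cast_nonneg _) (fun b _ => ?_))
  obtain ⟨J, X, h1, h2, h3, h4⟩ := ha b
  have h5 := merge (W := W) (fun i hi => (h3 i hi).1)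
    (fun i hi => (h3 i hi).1.trans (hB i (mem_range.1 (h1 hi))).1)
    (fun i _ j hj hij => hlt i j hij (mem_range.1 (h1 hj))) h4
  have h6 : a b ≤ ∑ i ∈ J, hn c b (X i) := by
    rw [← h2, card_eq_sum_ones]
    exact sum_le_sum (fun i hi => one_le_hn (h3 i hi).2)
  exact_mod_cast h6.trans h5

/-- A subset such that the product is stable on its dense subsets. -/
theorem regular {c : α → α → κ} {U : Finset α} {P m : ℝ} (hG : Good c U P m) (hP : 0 ≤ P)
    (hm : 0 ≤ m) (D : ℕ → ℝ) (hD : ∀ k, 1 ≤ D k) : ∀ r : ℕ, ∀ Y ⊆ U, phi c Y ≤ P * 16 ^ r →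
      m * ∏ k ∈ range (r + 1), D k ≤ (Y.card : ℝ) →
      ∃ Y' ⊆ Y, ∃ k ≤ r, phi c Y' ≤ P * 16 ^ k ∧ m ≤ (Y'.card : ℝ) ∧
        ∀ T ⊆ Y', (Y'.card : ℝ) ≤ D k * T.card → P * 16 ^ k ≤ 16 * phi c T := by
  have hprod : ∀ r : ℕ, 1 ≤ ∏ k ∈ range r, D k := by
    intro r
    rw [← Finset.prod_const_one (s := range r)]
    exact prod_le_prod (fun _ _ => zero_le_one) (fun k _ => hD k)
  have hmle : ∀ (r : ℕ) (x : ℝ), m * ∏ k ∈ range (r + 1), D k ≤ x → m ≤ x := by
    intro r x hx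
    have := mul_le_mul_of_nonneg_left (hprod (r + 1)) hm
    linarith
  intro r
  induction r with
  | zero =>
    intro Y hY hφ hc
    refine ⟨Y, Subset.refl _, 0, le_refl _, hφ, hmle 0 _ hc, ?_⟩
    intro T hT hTc
    have h1 : m ≤ T.card := by
      rw [zero_add, prod_range_one] at hc
      have h2 : m * D 0 ≤ T.card * D 0 := by
        calc m * D 0 ≤ Y.card := hc
          _ ≤ D 0 * T.card := hTc
          _ = T.card * D 0 := mul_comm _ _
      exact le_of_mul_le_mul_right h2 (by linarith [hD 0])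
    have h3 := hG T (hT.trans hY) h1
    have h4 := phi_nonneg c T
    rw [pow_zero, mul_one]
    linarith
  | succ r ih =>
    intro Y hY hφ hc
    by_cases h : ∀ T ⊆ Y, (Y.card : ℝ) ≤ D (r + 1) * T.card → P * 16 ^ (r + 1) ≤ 16 * phi c T
    · exact ⟨Y, Subset.refl _, r + 1, le_refl _, hφ, hmle _ _ hc, h⟩
    · push Not at h
      obtain ⟨T, hT, hTc, hTφ⟩ := h
      have h1 : m * ∏ k ∈ range (r + 1), D k ≤ (T.card : ℝ) := by
        rw [prod_range_succ] at hc
        have h2 : m * (∏ k ∈ range (r + 1), D k) * D (r + 1) ≤ T.card * D (r + 1) := by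
          calc m * (∏ k ∈ range (r + 1), D k) * D (r + 1) =
                m * ((∏ k ∈ range (r + 1), D k) * D (r + 1)) := by ring
            _ ≤ Y.card := hc
            _ ≤ D (r + 1) * T.card := hTc
            _ = T.card * D (r + 1) := mul_comm _ _
        exact le_of_mul_le_mul_right h2 (by linarith [hD (r + 1)])
      obtain ⟨Y', h2, k, h3, h4⟩ := ih T (hT.trans hY) (by
        rw [pow_succ] at hTφ
        linarith) h1
      exact ⟨Y', h2.trans hT, k, by omega, h4⟩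

theorem prod_exp_le (q p : ℝ) (hp : 0 ≤ p) (r : ℕ) :
    ∏ k ∈ range r, exp (q ^ 2 * (p / 4 ^ k)) ≤ exp (2 * q ^ 2 * p) := by
  rw [← exp_sum]
  apply exp_le_exp.2
  have h : ∀ r : ℕ, ∑ k ∈ range r, q ^ 2 * (p / 4 ^ k) = 4 / 3 * (q ^ 2 * p - q ^ 2 * (p / 4 ^ r)) := by
    intro r
    induction r with
    | zero => simp
    | succ r ih =>
      rw [sum_range_succ, ih]
      have h1 : q ^ 2 * (p / 4 ^ (r + 1)) = q ^ 2 * (p / 4 ^ r) / 4 := by
        rw [pow_succ (4 : ℝ) r, ← div_div, mul_div_assoc]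
      rw [h1]
      ring
  have h2 : 0 ≤ q ^ 2 * (p / 4 ^ r) := by positivity
  have h3 : 0 ≤ q ^ 2 * p := by positivity
  rw [h r]
  linarith

theorem log_two_pow_mul (k x : ℕ) (hx : x ≠ 0) : Nat.log 2 (2 ^ k * x) = k + Nat.log 2 x := by
  induction k with
  | zero => simp
  | succ k ih =>
    rw [pow_succ, show 2 ^ k * 2 * x = (2 ^ k * x) * 2 by ring,
      Nat.log_mul_base (by norm_num) (by positivity), ih]
    omega

/-- The main step: the product grows by a factor `c p ^ 2` when the size grows by a factor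
`t exp (C p)`. -/
theorem step [DecidableEq κ] {c : α → α → κ} {t : ℕ} {U : Finset α} {P m : ℝ}
    (hq : 2 ≤ Fintype.card κ) (hF : Few c t U) (hP : 0 < P) (hm : 1 ≤ m) (p : ℕ) (hp : 1 ≤ p)
    (hG : Good c U P m) :
    Good c U ((p : ℝ) ^ 2 / (16 * 32 ^ Fintype.card κ) * P)
      (((t : ℝ) + 1) * exp (9 * (Fintype.card κ : ℝ) ^ 2 * p) * m) := by
  classical
  intro W hW hWc
  by_contra hcon
  push Not at hcon
  set q : ℕ := Fintype.card κ with hqd
  have hκ : Nonempty κ := Fintype.card_pos_iff.1 (by omega)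
  have hqr : (2 : ℝ) ≤ q := by exact_mod_cast hq
  have hpr : (1 : ℝ) ≤ p := by exact_mod_cast hp
  have htr : (0 : ℝ) ≤ t := Nat.cast_nonneg t
  set D : ℕ → ℝ := fun k => exp ((q : ℝ) ^ 2 * ((p : ℝ) / 4 ^ k)) with hDd
  have hD1 : ∀ k, 1 ≤ D k := fun k => one_le_exp (by positivity)
  set E : ℝ := exp ((q : ℝ) ^ 2 * p) with hE
  have hE1 : 1 ≤ E := one_le_exp (by positivity)
  have hDE : ∀ k, D k ≤ E := by
    intro k
    apply exp_le_exp.2
    apply mul_le_mul_of_nonneg_left _ (by positivity)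
    exact div_le_self (by linarith) (one_le_pow₀ (by norm_num))
  have hDprod : ∏ k ∈ range (p + 1), D k ≤ exp (2 * (q : ℝ) ^ 2 * p) :=
    prod_exp_le (q : ℝ) p (by linarith) (p + 1)
  set n0 : ℕ := ⌈2 * E⌉₊ with hn0
  set s : ℕ := (2 * p + 1) ^ (q + 1) * n0 with hs
  set ℓ : ℕ := 2 * ⌈m * exp (2 * (q : ℝ) ^ 2 * p)⌉₊ with hℓ
  have hmE : 1 ≤ m * exp (2 * (q : ℝ) ^ 2 * p) := by
    have : 1 ≤ exp (2 * (q : ℝ) ^ 2 * p) := one_le_exp (by positivity)
    nlinarith
  have hℓ1 : 1 ≤ ℓ := by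
    have : 0 < ⌈m * exp (2 * (q : ℝ) ^ 2 * p)⌉₊ := Nat.ceil_pos.2 (by linarith)
    omega
  have hsize : (2 * s * t + 1) * s * ℓ ≤ W.card := by
    have h1 : (n0 : ℝ) ≤ 3 * E := by
      have := Nat.ceil_lt_add_one (show (0 : ℝ) ≤ 2 * E by positivity)
      linarith
    have h2 : ((2 * p + 1 : ℕ) : ℝ) ^ (q + 1) ≤ exp (2 * p * (q + 1)) := by
      have h3 : ((2 * p + 1 : ℕ) : ℝ) ≤ exp (2 * p) := by
        have := add_one_le_exp (2 * (p : ℝ))
        push_cast
        exact this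
      calc ((2 * p + 1 : ℕ) : ℝ) ^ (q + 1) ≤ (exp (2 * p)) ^ (q + 1) :=
            pow_le_pow_left₀ (Nat.cast_nonneg _) h3 _
        _ = exp (2 * p * (q + 1)) := by
            rw [← exp_nat_mul]
            push_cast
            ring_nf
    have h3 : (s : ℝ) ≤ 3 * E * exp (2 * p * (q + 1)) := by
      rw [hs]
      push_cast
      push_cast at h2
      calc (2 * (p : ℝ) + 1) ^ (q + 1) * n0 ≤ exp (2 * p * (q + 1)) * (3 * E) :=
            mul_le_mul h2 h1 (Nat.cast_nonneg _) (exp_pos _).le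
        _ = _ := by ring
    have h4 : (ℓ : ℝ) ≤ 4 * (m * exp (2 * (q : ℝ) ^ 2 * p)) := by
      rw [hℓ]
      push_cast
      have := Nat.ceil_lt_add_one (show (0 : ℝ) ≤ m * exp (2 * (q : ℝ) ^ 2 * p) by positivity)
      linarith
    have hs1 : (1 : ℝ) ≤ s := by
      have : 0 < s := by
        rw [hs]
        have : 0 < n0 := Nat.ceil_pos.2 (by positivity)
        positivity
      exact_mod_cast this
    have h5 : (2 * (s : ℝ) * t + 1) ≤ 2 * s * (t + 1) := by nlinarith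
    have h6 : ((2 * s * t + 1) * s * ℓ : ℝ) ≤
        (2 * (3 * E * exp (2 * p * (q + 1))) * (t + 1)) * (3 * E * exp (2 * p * (q + 1))) *
          (4 * (m * exp (2 * (q : ℝ) ^ 2 * p))) := by
      have hE0 : 0 ≤ E := by linarith
      have hm0 : 0 ≤ m := by linarith
      refine mul_le_mul (mul_le_mul (h5.trans ?_) h3 (by positivity) (by positivity)) h4
        (by positivity) (by positivity)
      apply mul_le_mul_of_nonneg_right _ (by linarith)
      linarith
    have h7 : (72 : ℝ) ≤ exp (5 * p) := by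
      have h8 : (2.7 : ℝ) ≤ exp 1 := by
        have := exp_one_gt_d9
        linarith
      calc (72 : ℝ) ≤ 2.7 ^ 5 := by norm_num
        _ ≤ (exp 1) ^ 5 := pow_le_pow_left₀ (by norm_num) h8 _
        _ = exp (5 * 1) := by rw [← exp_nat_mul]; norm_num
        _ ≤ exp (5 * p) := exp_le_exp.2 (by linarith)
    have h8 : (2 * (3 * E * exp (2 * p * (q + 1))) * ((t : ℝ) + 1)) *
        (3 * E * exp (2 * p * (q + 1))) * (4 * (m * exp (2 * (q : ℝ) ^ 2 * p))) =
        72 * exp (4 * (q : ℝ) ^ 2 * p + 4 * p * (q + 1)) * (t + 1) * m := by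
      have h9 : exp (4 * (q : ℝ) ^ 2 * p + 4 * p * (q + 1)) =
          E * E * exp (2 * p * (q + 1)) * exp (2 * p * (q + 1)) * exp (2 * (q : ℝ) ^ 2 * p) := by
        rw [hE, ← exp_add, ← exp_add, ← exp_add, ← exp_add]
        ring_nf
      rw [h9]
      ring
    have h9 : 72 * exp (4 * (q : ℝ) ^ 2 * p + 4 * p * (q + 1)) * ((t : ℝ) + 1) * m ≤
        ((t : ℝ) + 1) * exp (9 * (q : ℝ) ^ 2 * p) * m := by
      have hm0 : 0 ≤ m := by linarith
      apply mul_le_mul_of_nonneg_right _ hm0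
      rw [mul_comm ((t : ℝ) + 1)]
      apply mul_le_mul_of_nonneg_right _ (by linarith)
      calc 72 * exp (4 * (q : ℝ) ^ 2 * p + 4 * p * (q + 1)) ≤
            exp (5 * p) * exp (4 * (q : ℝ) ^ 2 * p + 4 * p * (q + 1)) :=
            mul_le_mul_of_nonneg_right h7 (exp_pos _).le
        _ = exp (5 * p + (4 * (q : ℝ) ^ 2 * p + 4 * p * (q + 1))) := by rw [← exp_add]
        _ ≤ exp (9 * (q : ℝ) ^ 2 * p) := by
            apply exp_le_exp.2
            have : 0 ≤ (p : ℝ) * (5 * (q : ℝ) ^ 2 - 4 * q - 9) :=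
              mul_nonneg (by linarith) (by nlinarith)
            nlinarith
    have h10 : ((2 * s * t + 1) * s * ℓ : ℝ) ≤ W.card := by
      rw [h8] at h6
      linarith
    exact_mod_cast h10
  obtain ⟨Z, Y, I, hIc, hZW, hY, hlt, hconst⟩ := spread hF s ℓ hℓ1 hW hsize
  have hYsub : ∀ i ∈ I, Y i ⊆ U := fun i hi => (hY i hi).1.trans ((hZW i hi).trans hW)
  have hYW : ∀ i ∈ I, Y i ⊆ W := fun i hi => (hY i hi).1.trans (hZW i hi)
  have hYc : ∀ i ∈ I, m * ∏ k ∈ range (p + 1), D k ≤ ((Y i).card : ℝ) := by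
    intro i hi
    have h1 := (hY i hi).2
    have h2 : ⌈m * exp (2 * (q : ℝ) ^ 2 * p)⌉₊ ≤ (Y i).card := by omega
    have h3 : m * exp (2 * (q : ℝ) ^ 2 * p) ≤ (Y i).card :=
      (Nat.le_ceil _).trans (by exact_mod_cast h2)
    exact (mul_le_mul_of_nonneg_left hDprod (by linarith)).trans h3
  have hconst1 : (p : ℝ) ^ 2 / (16 * 32 ^ q) * P ≤ P * (p : ℝ) ^ 2 := by
    rw [div_mul_eq_mul_div, div_le_iff₀ (by positivity)]
    have h1 : (1 : ℝ) ≤ 16 * 32 ^ q := by
      have : (1 : ℝ) ≤ 32 ^ q := one_le_pow₀ (by norm_num)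
      linarith
    have h2 : 0 ≤ P * (p : ℝ) ^ 2 := by positivity
    nlinarith
  have hp16 : (p : ℝ) ^ 2 ≤ 4 ^ p := by
    have h1 : (p : ℝ) ≤ 2 ^ p := by exact_mod_cast (Nat.lt_two_pow_self (n := p)).le
    calc (p : ℝ) ^ 2 ≤ (2 ^ p) ^ 2 := pow_le_pow_left₀ (by linarith) h1 _
      _ = 4 ^ p := by rw [← pow_mul, mul_comm, pow_mul]; norm_num
  have hφW : phi c W ≤ P * 16 ^ p := by
    have h1 : (4 : ℝ) ^ p ≤ 16 ^ p := pow_le_pow_left₀ (by norm_num) (by norm_num) _
    calc phi c W ≤ P * (p : ℝ) ^ 2 := hcon.le.trans hconst1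
      _ ≤ P * 16 ^ p := mul_le_mul_of_nonneg_left (hp16.trans h1) hP.le
  have hreg : ∀ i ∈ I, ∃ Y' ⊆ Y i, ∃ k ≤ p, phi c Y' ≤ P * 16 ^ k ∧ m ≤ (Y'.card : ℝ) ∧
      ∀ T ⊆ Y', (Y'.card : ℝ) ≤ D k * T.card → P * 16 ^ k ≤ 16 * phi c T := by
    intro i hi
    exact regular hG hP.le (by linarith) D hD1 p (Y i) (hYsub i hi)
      ((phi_mono (hYW i hi)).trans hφW) (hYc i hi)
  choose! X hXY k hkp hXφ hXm hXT using hreg
  have hXne : ∀ i ∈ I, (X i).Nonempty := by
    intro i hi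
    rw [← card_pos]
    have : (1 : ℝ) ≤ (X i).card := hm.trans (hXm i hi)
    exact_mod_cast this
  have hXW : ∀ i ∈ I, X i ⊆ W := fun i hi => (hXY i hi).trans (hYW i hi)
  have hWne : I.Nonempty → W.Nonempty := by
    rintro ⟨i, hi⟩
    exact (hXne i hi).mono (hXW i hi)
  -- the types
  set lam : ℕ → κ → ℕ := fun i b => Nat.log 2 (hn c b (X i)) with hlam
  set L : κ → ℕ := fun b => Nat.log 2 (hn c b W) with hL
  have hlamle : ∀ i ∈ I, ∀ b, lam i b ≤ L b := fun i hi b => Nat.log_mono_right (hn_mono (hXW i hi))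
  have hlamge : ∀ i ∈ I, ∀ b, L b ≤ 2 * p + lam i b := by
    intro i hi b
    have h1 : phi c W ≤ 4 ^ p * phi c (X i) := by
      have h2 : P ≤ phi c (X i) := hG (X i) ((hXY i hi).trans (hYsub i hi)) (hXm i hi)
      calc phi c W ≤ P * (p : ℝ) ^ 2 := hcon.le.trans hconst1
        _ ≤ phi c (X i) * 4 ^ p := mul_le_mul h2 hp16 (by positivity) (phi_nonneg _ _)
        _ = _ := mul_comm _ _
    have h2 := ratio (hXW i hi) (hXne i hi) h1 b
    have h3 : hn c b W ≤ 2 ^ (2 * p) * hn c b (X i) := by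
      have h4 : (2 : ℕ) ^ (2 * p) = 4 ^ p := by rw [pow_mul]; norm_num
      rw [h4]
      exact_mod_cast h2
    have h4 : hn c b (X i) ≠ 0 := by
      have := one_le_hn (c := c) (b := b) (hXne i hi)
      omega
    calc L b ≤ Nat.log 2 (2 ^ (2 * p) * hn c b (X i)) := Nat.log_mono_right h3
      _ = 2 * p + lam i b := log_two_pow_mul _ _ h4
  -- pigeonhole
  set types : Finset (ℕ × (κ → ℕ)) :=
    (range (p + 1)) ×ˢ Fintype.piFinset (fun b => Icc (L b - 2 * p) (L b)) with htypes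
  have hmaps : ∀ i ∈ I, (k i, lam i) ∈ types := by
    intro i hi
    rw [htypes, mem_product, mem_range, Fintype.mem_piFinset]
    refine ⟨by have := hkp i hi; show k i < p + 1; omega, fun b => ?_⟩
    rw [mem_Icc]
    have h1 := hlamle i hi b
    have h2 := hlamge i hi b
    exact ⟨by show L b - 2 * p ≤ lam i b; omega, h1⟩
  have htypes_card : types.card ≤ (2 * p + 1) ^ (q + 1) := by
    rw [htypes, card_product, card_range, Fintype.card_piFinset]
    have h1 : ∏ b, (Icc (L b - 2 * p) (L b)).card ≤ ∏ _b : κ, (2 * p + 1) := by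
      refine prod_le_prod' (fun b _ => ?_)
      rw [Nat.card_Icc]
      omega
    rw [prod_const, card_univ, ← hqd] at h1
    calc (p + 1) * ∏ b, (Icc (L b - 2 * p) (L b)).card ≤ (2 * p + 1) * (2 * p + 1) ^ q :=
          Nat.mul_le_mul (by omega) h1
      _ = (2 * p + 1) ^ (q + 1) := by rw [pow_succ]; ring
  have hn0pos : 0 < n0 := Nat.ceil_pos.2 (by positivity)
  have hIne : I.Nonempty := by
    rw [← card_pos, hIc, hs]
    positivity
  have htne : types.Nonempty := by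
    obtain ⟨i, hi⟩ := hIne
    exact ⟨_, hmaps i hi⟩
  obtain ⟨τ, hτ, hfib⟩ := exists_le_card_fiber_of_mul_le_card_of_maps_to
    (f := fun i => (k i, lam i)) (n := n0) hmaps htne (by
      rw [hIc, hs]
      exact Nat.mul_le_mul_right _ htypes_card)
  set I' := I.filter (fun i => (k i, lam i) = τ) with hI'
  have hI'I : I' ⊆ I := filter_subset _ _
  have hI'k : ∀ i ∈ I', k i = τ.1 := fun i hi => by
    have := (mem_filter.1 hi).2
    rw [← this]
  have hI'l : ∀ i ∈ I', lam i = τ.2 := fun i hi => by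
    have := (mem_filter.1 hi).2
    rw [← this]
  obtain ⟨i0, hi0⟩ : I'.Nonempty := by
    rw [← card_pos]
    omega
  -- chains
  obtain ⟨a, ha, haprod⟩ := chains
    (Big := fun i V (T : Finset α) => ((X i).card : ℝ) * V ≤ D τ.1 * (T.card : ℝ))
    (fun i => split_card _ _ (Nat.cast_nonneg _) (by linarith [hD1 τ.1])) hq c Z X I'
    (fun i hi j hj hij y hy => hconst i (hI'I hi) j (hI'I hj) hij y (hXY i (hI'I hi) hy))
    ((p : ℝ) / 4 ^ τ.1) (by positivity) (by
      have h1 := hDE τ.1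
      have h2 : 2 * E ≤ I'.card := (Nat.le_ceil _).trans (by exact_mod_cast hfib)
      show 2 * D τ.1 ≤ _
      linarith) (by
      intro i hi
      show ((X i).card : ℝ) * D τ.1 ≤ D τ.1 * (X i).card
      rw [mul_comm])
  -- the homogeneous sets
  have hbound : ∀ b, (a b : ℝ) * 2 ^ τ.2 b ≤ 16 * hn c b W := by
    intro b
    obtain ⟨J, T, hJ, hJc, hT, hC⟩ := ha b
    have h1 : ∀ i ∈ J, (2 : ℝ) ^ τ.2 b ≤ 16 * hn c b (T i) := by
      intro i hi
      have hiI := hI'I (hJ hi)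
      have h2 : ((X i).card : ℝ) ≤ D (k i) * (T i).card := by
        rw [hI'k i (hJ hi)]
        have := (hT i hi).2
        simpa using this
      have h3 := hXT i hiI (T i) (hT i hi).1 h2
      have hTne : (T i).Nonempty := by
        rw [nonempty_iff_ne_empty]
        intro h4
        rw [h4, card_empty, Nat.cast_zero, mul_zero] at h2
        have : (1 : ℝ) ≤ (X i).card := hm.trans (hXm i hiI)
        linarith
      have h4 : phi c (X i) ≤ 16 * phi c (T i) := (hXφ i hiI).trans h3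
      have h5 := ratio (hT i hi).1 hTne h4 b
      have h6 : 2 ^ τ.2 b ≤ hn c b (X i) := by
        rw [← hI'l i (hJ hi)]
        apply Nat.pow_log_le_self
        have := one_le_hn (c := c) (b := b) (hXne i hiI)
        omega
      have h7 : (2 : ℝ) ^ τ.2 b ≤ hn c b (X i) := by exact_mod_cast h6
      linarith
    have h2 := merge (W := W) (fun i hi => (hT i hi).1.trans ((hXY i (hI'I (hJ hi))).trans
      (hY i (hI'I (hJ hi))).1)) (fun i hi => (hT i hi).1.trans (hXW i (hI'I (hJ hi))))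
      (fun i hi j hj => hlt i (hI'I (hJ hi)) j (hI'I (hJ hj))) hC
    have h3 : (∑ i ∈ J, (hn c b (T i) : ℝ)) ≤ hn c b W := by exact_mod_cast h2
    calc (a b : ℝ) * 2 ^ τ.2 b = ∑ i ∈ J, (2 : ℝ) ^ τ.2 b := by
          rw [sum_const, hJc, nsmul_eq_mul]
      _ ≤ ∑ i ∈ J, 16 * (hn c b (T i) : ℝ) := sum_le_sum h1
      _ = 16 * ∑ i ∈ J, (hn c b (T i) : ℝ) := by rw [mul_sum]
      _ ≤ 16 * hn c b W := by linarith
  have hprod1 : (∏ b, (a b : ℝ)) * ∏ b, (2 : ℝ) ^ τ.2 b ≤ 16 ^ q * phi c W := by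
    rw [← prod_mul_distrib]
    calc ∏ b, ((a b : ℝ) * 2 ^ τ.2 b) ≤ ∏ b, (16 * (hn c b W : ℝ)) :=
          prod_le_prod (fun _ _ => by positivity) (fun b _ => hbound b)
      _ = 16 ^ q * phi c W := by
          rw [prod_mul_distrib, prod_const, card_univ, phi]
  have hprod2 : P * 16 ^ τ.1 ≤ 16 * (2 ^ q * ∏ b, (2 : ℝ) ^ τ.2 b) := by
    have h1 := hXT i0 (hI'I hi0) (X i0) (Subset.refl _) (by
      have := hD1 (k i0)
      have h2 : (0 : ℝ) ≤ (X i0).card := Nat.cast_nonneg _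
      nlinarith)
    rw [hI'k i0 hi0] at h1
    refine h1.trans (mul_le_mul_of_nonneg_left ?_ (by norm_num))
    calc phi c (X i0) ≤ ∏ b, (2 * (2 : ℝ) ^ τ.2 b) := by
          refine prod_le_prod (fun _ _ => Nat.cast_nonneg _) (fun b _ => ?_)
          have h2 : hn c b (X i0) < 2 ^ (lam i0 b + 1) := Nat.lt_pow_succ_log_self (by norm_num) _
          rw [hI'l i0 hi0] at h2
          have h3 : (hn c b (X i0) : ℝ) ≤ 2 ^ (τ.2 b + 1) := by exact_mod_cast h2.le
          calc (hn c b (X i0) : ℝ) ≤ 2 ^ (τ.2 b + 1) := h3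
            _ = 2 * 2 ^ τ.2 b := by rw [pow_succ]; ring
      _ = 2 ^ q * ∏ b, (2 : ℝ) ^ τ.2 b := by rw [prod_mul_distrib, prod_const, card_univ]
  have hΛ : 0 ≤ ∏ b, (2 : ℝ) ^ τ.2 b := prod_nonneg (fun _ _ => by positivity)
  have hfinal : (p : ℝ) ^ 2 * P ≤ 16 * 32 ^ q * phi c W := by
    have h4 : ((p : ℝ) / 4 ^ τ.1) ^ 2 * 16 ^ τ.1 = (p : ℝ) ^ 2 := by
      rw [div_pow, ← pow_mul, mul_comm τ.1 2, pow_mul]
      norm_num
    calc (p : ℝ) ^ 2 * P = ((p : ℝ) / 4 ^ τ.1) ^ 2 * (P * 16 ^ τ.1) := by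
          rw [← h4]
          ring
      _ ≤ (∏ b, (a b : ℝ)) * (16 * (2 ^ q * ∏ b, (2 : ℝ) ^ τ.2 b)) :=
          mul_le_mul haprod hprod2 (by positivity) ((by positivity : (0 : ℝ) ≤ _).trans haprod)
      _ = 16 * 2 ^ q * ((∏ b, (a b : ℝ)) * ∏ b, (2 : ℝ) ^ τ.2 b) := by ring
      _ ≤ 16 * 2 ^ q * (16 ^ q * phi c W) := mul_le_mul_of_nonneg_left hprod1 (by positivity)
      _ = 16 * 32 ^ q * phi c W := by
          rw [show (32 : ℝ) = 2 * 16 by norm_num, mul_pow]
          ring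
  have h1 : (p : ℝ) ^ 2 / (16 * 32 ^ q) * P ≤ phi c W := by
    rw [div_mul_eq_mul_div, div_le_iff₀ (by positivity)]
    linarith
  exact absurd hcon (not_lt.2 h1)

/-- The lower bound for the product of the sizes of the largest homogeneous sets. -/
theorem main [DecidableEq κ] {c : α → α → κ} {t : ℕ} {U : Finset α}
    (hq : 2 ≤ Fintype.card κ) (hF : Few c t U) (h p : ℕ) (hp : 1 ≤ p) (w : ℝ) (hw : 0 ≤ w)
    (hU : (((t : ℝ) + 1) * exp (9 * (Fintype.card κ : ℝ) ^ 2 * p)) ^ h *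
      (2 * exp ((Fintype.card κ : ℝ) ^ 2 * w)) ≤ U.card) :
    ((p : ℝ) ^ 2 / (16 * 32 ^ Fintype.card κ)) ^ h * w ^ 2 ≤ phi c U := by
  rcases hw.eq_or_lt with hw0 | hw0
  · rw [← hw0, zero_pow (by norm_num), mul_zero]
    exact phi_nonneg _ _
  · have hpr : (1 : ℝ) ≤ p := by exact_mod_cast hp
    have key : ∀ h : ℕ, Good c U (((p : ℝ) ^ 2 / (16 * 32 ^ Fintype.card κ)) ^ h * w ^ 2)
        ((((t : ℝ) + 1) * exp (9 * (Fintype.card κ : ℝ) ^ 2 * p)) ^ h *
          (2 * exp ((Fintype.card κ : ℝ) ^ 2 * w))) := by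
      intro h
      induction h with
      | zero =>
        rw [pow_zero, pow_zero, one_mul, one_mul]
        exact base hq c U w hw
      | succ h ih =>
        have h1 := step hq hF (by positivity) ?_ p hp ih
        · rw [pow_succ, pow_succ (((t : ℝ) + 1) * exp (9 * (Fintype.card κ : ℝ) ^ 2 * p))]
          have e1 : ((p : ℝ) ^ 2 / (16 * 32 ^ Fintype.card κ)) ^ h *
              ((p : ℝ) ^ 2 / (16 * 32 ^ Fintype.card κ)) * w ^ 2 =
              (p : ℝ) ^ 2 / (16 * 32 ^ Fintype.card κ) *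
                (((p : ℝ) ^ 2 / (16 * 32 ^ Fintype.card κ)) ^ h * w ^ 2) := by ring
          have e2 : (((t : ℝ) + 1) * exp (9 * (Fintype.card κ : ℝ) ^ 2 * p)) ^ h *
              (((t : ℝ) + 1) * exp (9 * (Fintype.card κ : ℝ) ^ 2 * p)) *
              (2 * exp ((Fintype.card κ : ℝ) ^ 2 * w)) =
              ((t : ℝ) + 1) * exp (9 * (Fintype.card κ : ℝ) ^ 2 * p) *
                ((((t : ℝ) + 1) * exp (9 * (Fintype.card κ : ℝ) ^ 2 * p)) ^ h *
                  (2 * exp ((Fintype.card κ : ℝ) ^ 2 * w))) := by ring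
          rw [e1, e2]
          exact h1
        · have h2 : (1 : ℝ) ≤ ((t : ℝ) + 1) * exp (9 * (Fintype.card κ : ℝ) ^ 2 * p) := by
            have h3 : 1 ≤ exp (9 * (Fintype.card κ : ℝ) ^ 2 * p) := one_le_exp (by positivity)
            have h4 : (0 : ℝ) ≤ t := Nat.cast_nonneg t
            nlinarith
          have h3 : (1 : ℝ) ≤ exp ((Fintype.card κ : ℝ) ^ 2 * w) := one_le_exp (by positivity)
          have h4 := one_le_pow₀ h2 (n := h)
          nlinarith
    exact key h U (Subset.refl _) hU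

end Pool.Agent.Q274.IV
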