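import Mathlib

/-!
# Graphs with few alternations: definitions
-/

namespace Pool.Agent.Q274.IV

open Finset

/-- The number of changes of the adjacency to `v` along the vertices after `v`: the number of
vertices `z > v` such that exactly one of `z`, `z + 1` is adjacent to `v`. -/
noncomputable def changesAfter {n : ℕ} (G : SimpleGraph (Fin n)) (v : Fin n) : ℕ :=
  open Classical in
  ((univ : Finset (Fin n)).filter (fun z => v < z ∧
    ∃ h : z.1 + 1 < n, ¬ (G.Adj v z ↔ G.Adj v ⟨z.1 + 1, h⟩))).card

/-- The number of changes of the adjacency to `v` along the vertices before `v`: the number of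
vertices `z`, `z + 1 < v`, such that exactly one of `z`, `z + 1` is adjacent to `v`. -/
noncomputable def changesBefore {n : ℕ} (G : SimpleGraph (Fin n)) (v : Fin n) : ℕ :=
  open Classical in
  ((univ : Finset (Fin n)).filter (fun z => z.1 + 1 < v.1 ∧
    ∃ h : z.1 + 1 < n, ¬ (G.Adj v z ↔ G.Adj v ⟨z.1 + 1, h⟩))).card

/-- Every vertex has at most `t` changes on one of its two sides. -/
def OneSided {n : ℕ} (G : SimpleGraph (Fin n)) (t : ℕ) : Prop :=
  ∀ v, changesAfter G v ≤ t ∨ changesBefore G v ≤ t

end Pool.Agent.Q274.IV
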