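import Pool.Agent.Q274.IV.Level
import Pool.Agent.Q274.IV.PDefs

/-!
# Graphs with few alternations: upper bounds
-/

namespace Pool.Agent.Q274.IV

open Finset Real

open Classical in
theorem few_after {n : ℕ} (G : SimpleGraph (Fin n)) (t : ℕ) :
    Few (fun x y => decide (G.Adj x y)) t (univ.filter (fun v => changesAfter G v ≤ t)) := by
  intro y hy
  refine ⟨_, (mem_filter.1 hy).2, ?_⟩
  intro z _ z' _ hyz hzz h
  have key : ∀ k : ℕ, ∀ hk : z.1 + k < n, z.1 + k ≤ z'.1 → (G.Adj y z ↔ G.Adj y ⟨z.1 + k, hk⟩) := by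
    intro k
    induction k with
    | zero => intro _ _; rfl
    | succ k ih =>
      intro hk hk'
      rw [ih (by omega) (by omega)]
      by_contra hcon
      refine h ⟨z.1 + k, by omega⟩ ?_ ⟨?_, ?_⟩
      · rw [mem_filter]
        refine ⟨mem_univ _, ?_, hk, hcon⟩
        rw [Fin.lt_def] at hyz ⊢
        show y.1 < z.1 + k
        omega
      · rw [Fin.le_def]
        show z.1 ≤ z.1 + k
        omega
      · rw [Fin.le_def]
        show z.1 + k ≤ z'.1
        omega
  rw [Fin.lt_def] at hzz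
  have h1 := key (z'.1 - z.1) (by omega) (by omega)
  have h2 : (⟨z.1 + (z'.1 - z.1), by omega⟩ : Fin n) = z' := Fin.ext (by show z.1 + (z'.1 - z.1) = z'.1; omega)
  rw [h2] at h1
  simp only [decide_eq_decide]
  exact h1

open Classical in
theorem few_before {n : ℕ} (G : SimpleGraph (Fin n)) (t : ℕ) :
    Few (α := (Fin n)ᵒᵈ)
      (fun x y => decide (G.Adj (OrderDual.ofDual x) (OrderDual.ofDual y))) t
      ((univ.filter (fun v => changesBefore G v ≤ t)).map OrderDual.toDual.toEmbedding) := by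
  intro y hy
  rw [mem_map] at hy
  obtain ⟨y, hy, rfl⟩ := hy
  refine ⟨((univ : Finset (Fin n)).filter (fun z => z.1 + 1 < y.1 ∧
    ∃ h : z.1 + 1 < n, ¬ (G.Adj y z ↔ G.Adj y ⟨z.1 + 1, h⟩))).map OrderDual.toDual.toEmbedding, ?_, ?_⟩
  · rw [card_map]
    exact (mem_filter.1 hy).2
  intro z hz z' hz' hyz hzz h
  rw [mem_map] at hz hz'
  obtain ⟨z, -, rfl⟩ := hz
  obtain ⟨z', -, rfl⟩ := hz'
  have hyz' : z < y := hyz
  have hzz' : z' < z := hzz
  rw [Fin.lt_def] at hyz' hzz'
  have key : ∀ k : ℕ, ∀ hk : z'.1 + k < n, z'.1 + k ≤ z.1 →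
      (G.Adj y z' ↔ G.Adj y ⟨z'.1 + k, hk⟩) := by
    intro k
    induction k with
    | zero => intro _ _; rfl
    | succ k ih =>
      intro hk hk'
      rw [ih (by omega) (by omega)]
      by_contra hcon
      refine h (OrderDual.toDual ⟨z'.1 + k, by omega⟩) ?_ ⟨?_, ?_⟩
      · rw [mem_map]
        refine ⟨_, mem_filter.2 ⟨mem_univ _, ?_, hk, hcon⟩, rfl⟩
        show z'.1 + k + 1 < y.1
        omega
      · show (⟨z'.1 + k, by omega⟩ : Fin n) ≤ z
        rw [Fin.le_def]
        show z'.1 + k ≤ z.1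
        omega
      · show z' ≤ (⟨z'.1 + k, by omega⟩ : Fin n)
        rw [Fin.le_def]
        show z'.1 ≤ z'.1 + k
        omega
  have h1 := key (z.1 - z'.1) (by omega) (by omega)
  have h2 : (⟨z'.1 + (z.1 - z'.1), by omega⟩ : Fin n) = z :=
    Fin.ext (by show z'.1 + (z.1 - z'.1) = z.1; omega)
  rw [h2] at h1
  simp only [decide_eq_decide]
  exact h1.symm

theorem phi_bool {α : Type*} [LinearOrder α] (c : α → α → Bool) (W : Finset α) :
    phi c W = hn c true W * hn c false W := by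
  rw [phi, Fintype.prod_bool]

/-- The clique number bounds. -/
theorem hn_lt {V α : Type*} [LinearOrder α] (f : α ↪ V) (G : SimpleGraph V)
    {k : ℕ} (h1 : G.CliqueFree k) (h2 : Gᶜ.CliqueFree k) (c : α → α → Bool)
    (hc : ∀ x y, c x y = true ↔ G.Adj (f x) (f y)) (b : Bool) (W : Finset α) : hn c b W < k := by
  classical
  obtain ⟨A, -, hA, hAc⟩ := exists_hn c b W
  rw [← hAc]
  by_contra hcon
  push Not at hcon
  cases b with
  | true =>
    refine (h1.mono hcon) (A.map f) ⟨?_, card_map _⟩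
    intro x hx y hy hxy
    rw [mem_coe, mem_map] at hx hy
    obtain ⟨x, hx, rfl⟩ := hx
    obtain ⟨y, hy, rfl⟩ := hy
    rcases lt_trichotomy x y with h | h | h
    · exact (hc x y).1 (hA x hx y hy h)
    · exact absurd (congrArg f h) hxy
    · exact ((hc y x).1 (hA y hy x hx h)).symm
  | false =>
    refine (h2.mono hcon) (A.map f) ⟨?_, card_map _⟩
    intro x hx y hy hxy
    rw [mem_coe, mem_map] at hx hy
    obtain ⟨x, hx, rfl⟩ := hx
    obtain ⟨y, hy, rfl⟩ := hy
    rw [SimpleGraph.compl_adj]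
    refine ⟨hxy, fun hadj => ?_⟩
    rcases lt_trichotomy x y with h | h | h
    · have h3 := hA x hx y hy h
      rw [(hc x y).2 hadj] at h3
      exact absurd h3 (by simp)
    · exact hxy (congrArg f h)
    · have h3 := hA y hy x hx h
      rw [(hc y x).2 hadj.symm] at h3
      exact absurd h3 (by simp)

theorem core {α V : Type*} [LinearOrder α] (f : α ↪ V) (G : SimpleGraph V)
    {k : ℕ} (h1 : G.CliqueFree k) (h2 : Gᶜ.CliqueFree k) (c : α → α → Bool)
    (hc : ∀ x y, c x y = true ↔ G.Adj (f x) (f y)) {t : ℕ} {W : Finset α} (hF : Few c t W)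
    (h p : ℕ) (hp : 1 ≤ p) (w : ℝ) (hw : 0 ≤ w)
    (hW : (((t : ℝ) + 1) * exp (36 * p)) ^ h * (2 * exp (4 * w)) ≤ W.card) :
    ((p : ℝ) / 128) ^ h * w < k := by
  have h3 := main (κ := Bool) (by simp) hF h p hp w hw (by
    rw [Fintype.card_bool]
    norm_num
    exact hW)
  rw [phi_bool, Fintype.card_bool] at h3
  have ht := hn_lt f G h1 h2 c hc true W
  have hf := hn_lt f G h1 h2 c hc false W
  have ht' : (hn c true W : ℝ) + 1 ≤ k := by exact_mod_cast ht
  have hf' : (hn c false W : ℝ) + 1 ≤ k := by exact_mod_cast hf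
  have h0 : (0 : ℝ) ≤ hn c true W := Nat.cast_nonneg _
  have h0' : (0 : ℝ) ≤ hn c false W := Nat.cast_nonneg _
  have h4 : (((p : ℝ) / 128) ^ h * w) ^ 2 = ((p : ℝ) ^ 2 / (16 * 32 ^ 2)) ^ h * w ^ 2 := by
    rw [mul_pow, ← pow_mul, mul_comm h 2, pow_mul, div_pow]
    norm_num
  have h5 : (((p : ℝ) / 128) ^ h * w) ^ 2 < (k : ℝ) ^ 2 := by
    rw [h4]
    nlinarith
  exact lt_of_pow_lt_pow_left₀ 2 (Nat.cast_nonneg _) h5

/-- The basic inequality for graphs with few alternations. -/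
theorem pairs_bound {n : ℕ} (G : SimpleGraph (Fin n)) {k t : ℕ} (hG : OneSided G t)
    (h1 : G.CliqueFree k) (h2 : Gᶜ.CliqueFree k) (h p : ℕ) (hp : 1 ≤ p) (w : ℝ) (hw : 0 ≤ w)
    (hn : (((t : ℝ) + 1) * exp (36 * p)) ^ h * (4 * exp (4 * w)) ≤ n) :
    ((p : ℝ) / 128) ^ h * w < k := by
  classical
  set V1 := (univ : Finset (Fin n)).filter (fun v => changesAfter G v ≤ t) with hV1
  set V2 := (univ : Finset (Fin n)).filter (fun v => changesBefore G v ≤ t) with hV2
  have hcov : n ≤ V1.card + V2.card := by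
    have h3 : (univ : Finset (Fin n)) ⊆ V1 ∪ V2 := by
      intro v _
      rw [mem_union, hV1, hV2, mem_filter, mem_filter]
      rcases hG v with h4 | h4
      · exact Or.inl ⟨mem_univ _, h4⟩
      · exact Or.inr ⟨mem_univ _, h4⟩
    have h4 := (card_le_card h3).trans (card_union_le _ _)
    rwa [card_univ, Fintype.card_fin] at h4
  have hcov' : (n : ℝ) ≤ V1.card + V2.card := by exact_mod_cast hcov
  rcases le_total V1.card V2.card with hle | hle
  · have hle' : (V1.card : ℝ) ≤ V2.card := by exact_mod_cast hle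
    refine core (α := (Fin n)ᵒᵈ) OrderDual.ofDual.toEmbedding G h1 h2 _ ?_ (few_before G t) h p hp
      w hw ?_
    · intro x y
      rw [decide_eq_true_eq]
      rfl
    · rw [card_map]
      have : (((t : ℝ) + 1) * exp (36 * p)) ^ h * (4 * exp (4 * w)) =
        2 * ((((t : ℝ) + 1) * exp (36 * p)) ^ h * (2 * exp (4 * w))) := by ring
      linarith
  · have hle' : (V2.card : ℝ) ≤ V1.card := by exact_mod_cast hle
    refine core (α := Fin n) (Function.Embedding.refl _) G h1 h2 _ ?_ (few_after G t) h p hp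
      w hw ?_
    · intro x y
      rw [decide_eq_true_eq]
      rfl
    · have : (((t : ℝ) + 1) * exp (36 * p)) ^ h * (4 * exp (4 * w)) =
        2 * ((((t : ℝ) + 1) * exp (36 * p)) ^ h * (2 * exp (4 * w))) := by ring
      linarith

/-- The bound with `j - 1` levels. -/
theorem upper (j : ℕ) (hj : 1 ≤ j) {n : ℕ} (G : SimpleGraph (Fin n)) (t k : ℕ)
    (hG : OneSided G t) (h1 : G.CliqueFree k) (h2 : Gᶜ.CliqueFree k) :
    (n : ℝ) ≤ ((t : ℝ) + 1) ^ (j - 1) * exp (5000 * j * (k : ℝ) ^ ((1 : ℝ) / j)) := by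
  have hk : 1 ≤ k := by
    by_contra hcon
    have h0 : k = 0 := by omega
    subst h0
    exact h1 ∅ ⟨by simp, rfl⟩
  have hkr : (1 : ℝ) ≤ k := by exact_mod_cast hk
  have hjr : (1 : ℝ) ≤ j := by exact_mod_cast hj
  set x : ℝ := (k : ℝ) ^ ((1 : ℝ) / j) with hx
  have hx1 : 1 ≤ x := one_le_rpow hkr (by positivity)
  have hxj : x ^ j = k := by
    rw [hx, ← rpow_natCast, ← rpow_mul (by positivity), one_div, inv_mul_cancel₀ (by linarith),
      rpow_one]
  set p : ℕ := ⌈128 * x⌉₊ with hp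
  have hp1 : 1 ≤ p := Nat.ceil_pos.2 (by linarith)
  have hpge : 128 * x ≤ p := Nat.le_ceil _
  have hple : (p : ℝ) ≤ 129 * x := by
    have := Nat.ceil_lt_add_one (show (0 : ℝ) ≤ 128 * x by linarith)
    linarith
  have ht : (0 : ℝ) ≤ t := Nat.cast_nonneg t
  have key : (n : ℝ) < (((t : ℝ) + 1) * exp (36 * p)) ^ (j - 1) * (4 * exp (4 * x)) := by
    by_contra hcon
    push Not at hcon
    have h3 := pairs_bound G hG h1 h2 (j - 1) p hp1 x (by linarith) hcon
    have h4 : x ^ (j - 1) * x ≤ ((p : ℝ) / 128) ^ (j - 1) * x := by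
      apply mul_le_mul_of_nonneg_right _ (by linarith)
      apply pow_le_pow_left₀ (by linarith)
      linarith
    rw [← pow_succ, Nat.sub_add_cancel hj, hxj] at h4
    linarith
  refine key.le.trans ?_
  rw [mul_pow, mul_assoc]
  apply mul_le_mul_of_nonneg_left _ (by positivity)
  have h4 : (4 : ℝ) ≤ exp (2 * x) := by
    calc (4 : ℝ) = 2 * 2 := by norm_num
      _ ≤ exp 1 * exp 1 := by
        have := exp_one_gt_d9
        apply mul_le_mul <;> linarith
      _ = exp (1 + 1) := (exp_add _ _).symm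
      _ ≤ exp (2 * x) := exp_le_exp.2 (by linarith)
  calc exp (36 * p) ^ (j - 1) * (4 * exp (4 * x)) ≤
        exp (36 * p) ^ (j - 1) * (exp (2 * x) * exp (4 * x)) := by gcongr
    _ = exp ((j - 1 : ℕ) * (36 * p) + (2 * x + 4 * x)) := by
        rw [← exp_nat_mul, ← exp_add, ← exp_add]
    _ ≤ exp (5000 * j * x) := by
        apply exp_le_exp.2
        rw [Nat.cast_sub hj, Nat.cast_one]
        have h5 : ((j : ℝ) - 1) * (36 * p) ≤ ((j : ℝ) - 1) * (36 * (129 * x)) := by
          apply mul_le_mul_of_nonneg_left _ (by linarith)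
          linarith
        nlinarith

end Pool.Agent.Q274.IV
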