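import Pool.Agent.Q274.IV.HMain
import Pool.Agent.Y424.LK.Lower
import Pool.Agent.Y422.TW.Final

/-!
# Stepping up multiplies the number of changes by a constant
-/

set_option autoImplicit false

namespace Pool.Agent.Q274.IV

open Finset Pool.Agent.TH138.NF Pool.Agent.Y424.LK

theorem iso (x p q : ℕ) : hh x p < hh x q ↔ hh x p < hh p q := by
  constructor
  · intro h
    rcases le_max_iff.1 (ultra x p q) with h1 | h1
    · exact absurd h (not_lt.2 h1)
    · exact h.trans_le h1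
  · intro h
    have h2 := ultra p x q
    rw [hh_comm p x] at h2
    rcases le_max_iff.1 h2 with h1 | h1
    · exact absurd h (not_lt.2 h1)
    · exact h.trans_le h1

theorem walk_c {κ : Type} {c : Finset ℕ → κ} {E : Finset ℕ} {w w' N : ℕ} (hww : w ≤ w')
    (hw'N : w' < N) (hw : w ∉ E) (hw' : w' ∉ E) (h1 : ∀ e ∈ E, (w < e ↔ w' < e))
    (h2 : ∀ e, w ≤ e → e < w' → e + 1 < N → e ∉ E → e + 1 ∉ E →
      c (insert e E) = c (insert (e + 1) E)) :
    c (insert w E) = c (insert w' E) := by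
  have hno : ∀ e, w ≤ e → e ≤ w' → e ∉ E := by
    intro e he1 he2 heE
    have h3 := h1 e heE
    have h4 : w ≠ e := fun h => hw (h ▸ heE)
    have h5 : w' ≠ e := fun h => hw' (h ▸ heE)
    omega
  have h3 := walk (fun e => c (insert e E)) w (w' - w) (fun e he1 he2 =>
    h2 e he1 (by omega) (by omega) (hno e he1 (by omega)) (hno (e + 1) (by omega) (by omega)))
  have h4 : w + (w' - w) = w' := by omega
  rw [h4] at h3
  exact h3

theorem same_colour {κ κ' : Type} {c : Finset ℕ → κ} {c' : Finset ℕ → κ'} {R N : ℕ}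
    (hS : Steps c c' R N) {A : Finset ℕ} (hA : A ⊆ range (2 ^ N)) (hc : A.card = R + 1)
    (Θ : Finset ℕ) (hΘ1 : ∀ a ∈ A, ∀ b ∈ A, hh a b ∈ Θ)
    (hΘ2 : (univ.image (D (srt (R + 1) A))).card = R → ∀ e, e + 1 < N →
      e ∉ univ.image (D (srt (R + 1) A)) → e + 1 ∉ univ.image (D (srt (R + 1) A)) →
      c (insert e (univ.image (D (srt (R + 1) A)))) ≠
        c (insert (e + 1) (univ.image (D (srt (R + 1) A)))) → e ∈ Θ)
    {x x' : ℕ} (hx : x < 2 ^ N) (hx' : x' < 2 ^ N) (hxA : x ∉ A) (hxA' : x' ∉ A)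
    (hord : ∀ a ∈ A, (a < x ↔ a < x'))
    (h1 : ∀ a ∈ A, ∀ θ ∈ Θ, (hh x a < θ ↔ hh x' a < θ))
    (h2 : ∀ a ∈ A, ∀ θ ∈ Θ, (θ < hh x a ↔ θ < hh x' a)) :
    c' (insert x A) = c' (insert x' A) := by
  obtain ⟨i, X, hX, hXim, hXi, hXa, hXlt⟩ := insert_point hc hxA
  obtain ⟨i', X', hX', hXim', hXi', hXa', hXlt'⟩ := insert_point hc hxA'
  set a := srt (R + 1) A with ha
  have himA : univ.image a = A := srt_image hc
  have haA : ∀ k, a k ∈ A := fun k => by rw [← himA]; exact mem_image_of_mem _ (mem_univ _)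
  have hii : i' = i := by
    apply Fin.ext
    have key : ∀ k : Fin (R + 1), (k : ℕ) < i ↔ (k : ℕ) < i' := by
      intro k
      rw [← hXlt k, ← hXlt' k]
      exact hord _ (haA k)
    rcases lt_trichotomy (i : ℕ) i' with h | h | h
    · have h1 := key ⟨i, by omega⟩
      simp only at h1
      omega
    · exact h.symm
    · have h1 := key ⟨i', by omega⟩
      simp only at h1
      omega
  subst hii
  have hXb : ∀ k, X k < 2 ^ N := by
    intro k
    have h1 : X k ∈ insert x A := by rw [← hXim]; exact mem_image_of_mem _ (mem_univ _)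
    rcases mem_insert.1 h1 with h | h
    · rw [h]; exact hx
    · exact mem_range.1 (hA h)
  have hXb' : ∀ k, X' k < 2 ^ N := by
    intro k
    have h1 : X' k ∈ insert x' A := by rw [← hXim']; exact mem_image_of_mem _ (mem_univ _)
    rcases mem_insert.1 h1 with h | h
    · rw [h]; exact hx'
    · exact mem_range.1 (hA h)
  have hXs : ∀ k, X (i'.succAbove k) = a k := fun k => by
    rw [← hXa, Fin.removeNth_apply]
  have hXs' : ∀ k, X' (i'.succAbove k) = a k := fun k => by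
    rw [← hXa', Fin.removeNth_apply]
  have hval : ∀ u v, u ≠ v →
      (∃ p q, hh (X u) (X v) = hh (a p) (a q) ∧ hh (X' u) (X' v) = hh (a p) (a q)) ∨
      (∃ p, hh (X u) (X v) = hh x (a p) ∧ hh (X' u) (X' v) = hh x' (a p)) := by
    intro u v huv
    rcases Fin.eq_self_or_eq_succAbove i' u with hu | ⟨k, hu⟩ <;>
      rcases Fin.eq_self_or_eq_succAbove i' v with hv | ⟨l, hv⟩
    · exact absurd (hu.trans hv.symm) huv
    · refine Or.inr ⟨l, ?_, ?_⟩
      · rw [hu, hv, hXi, hXs]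
      · rw [hu, hv, hXi', hXs']
    · refine Or.inr ⟨k, ?_, ?_⟩
      · rw [hu, hv, hXi, hXs, hh_comm]
      · rw [hu, hv, hXi', hXs', hh_comm]
    · refine Or.inl ⟨k, l, ?_, ?_⟩
      · rw [hu, hv, hXs, hXs]
      · rw [hu, hv, hXs', hXs']
  have hDX : ∀ k, D X k = hh (X k.castSucc) (X k.succ) := fun k => by
    rw [hh_lt (hX (Fin.castSucc_lt_succ))]
    rfl
  have hDX' : ∀ k, D X' k = hh (X' k.castSucc) (X' k.succ) := fun k => by
    rw [hh_lt (hX' (Fin.castSucc_lt_succ))]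
    rfl
  have hpat : Pat (D X) (D X') := by
    intro k l
    rw [hDX, hDX, hDX', hDX']
    rcases hval k.castSucc k.succ (Fin.castSucc_lt_succ).ne with ⟨p, q, e1, e2⟩ | ⟨p, e1, e2⟩ <;>
      rcases hval l.castSucc l.succ (Fin.castSucc_lt_succ).ne with ⟨p', q', e3, e4⟩ | ⟨p', e3, e4⟩
    · rw [e1, e2, e3, e4]
    · rw [e1, e2, e3, e4]
      exact h2 _ (haA p') _ (hΘ1 _ (haA p) _ (haA q))
    · rw [e1, e2, e3, e4]
      exact h1 _ (haA p) _ (hΘ1 _ (haA p') _ (haA q'))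
    · rw [e1, e2, e3, e4, iso, iso]
      exact h1 _ (haA p) _ (hΘ1 _ (haA p) _ (haA p'))
  rw [← hXim, ← hXim']
  refine hS X X' hX hX' hXb hXb' hpat ?_
  intro hmon
  have hpq : ∃ p q : Fin (R + 1), (D a = p.removeNth (D X) ∧ D X p = hh x (a q)) ∧
      (D a = p.removeNth (D X') ∧ D X' p = hh x' (a q)) := by
    rcases hmon with hm | hm
    · obtain ⟨p, q, h⟩ := rem_mono i'
      refine ⟨p, q, ?_, ?_⟩
      · have := h X hX hm
        rw [hXa, hXi] at this
        exact this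
      · have := h X' hX' (hpat.mono hm)
        rw [hXa', hXi'] at this
        exact this
    · obtain ⟨p, q, h⟩ := rem_anti i'
      refine ⟨p, q, ?_, ?_⟩
      · have := h X hX hm
        rw [hXa, hXi] at this
        exact this
      · have := h X' hX' (hpat.anti hm)
        rw [hXa', hXi'] at this
        exact this
  obtain ⟨p, q, ⟨e1, e2⟩, ⟨e3, e4⟩⟩ := hpq
  have hinj : Function.Injective (D X) := by
    rcases hmon with hm | hm
    · exact hm.injective
    · exact hm.injective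
  have hinj' : Function.Injective (D X') := by
    rcases hmon with hm | hm
    · exact (hpat.mono hm).injective
    · exact (hpat.anti hm).injective
  have hcardE : (univ.image (D a)).card = R := by
    rw [e1, card_image_of_injective, card_univ, Fintype.card_fin]
    intro k l hkl
    rw [Fin.removeNth_apply, Fin.removeNth_apply] at hkl
    exact Fin.succAbove_right_injective (hinj hkl)
  have hnot : D X p ∉ univ.image (D a) := by
    intro h
    rw [e1] at h
    obtain ⟨k, -, hk⟩ := mem_image.1 h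
    rw [Fin.removeNth_apply] at hk
    exact Fin.succAbove_ne p k (hinj hk)
  have hnot' : D X' p ∉ univ.image (D a) := by
    intro h
    rw [e3] at h
    obtain ⟨k, -, hk⟩ := mem_image.1 h
    rw [Fin.removeNth_apply] at hk
    exact Fin.succAbove_ne p k (hinj' hk)
  have hlt : D X p < N := hd_lt (hX (Fin.castSucc_lt_succ)) (hXb _)
  have hlt' : D X' p < N := hd_lt (hX' (Fin.castSucc_lt_succ)) (hXb' _)
  have hEΘ : ∀ e ∈ univ.image (D a), e ∈ Θ := by
    intro e he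
    obtain ⟨k, -, rfl⟩ := mem_image.1 he
    have ham : StrictMono a := srt_mono hc
    rcases R with _ | R
    · exact k.elim0
    · have h3 : D a k = hh (a k.castSucc) (a k.succ) := by
        rw [hh_lt (ham (Fin.castSucc_lt_succ))]
        rfl
      rw [h3]
      exact hΘ1 _ (haA _) _ (haA _)
  rw [image_removeNth (D X) p, image_removeNth (D X') p, ← e1, ← e3]
  rw [e2] at hnot hlt ⊢
  rw [e4] at hnot' hlt' ⊢
  rcases le_total (hh x (a q)) (hh x' (a q)) with hle | hle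
  · refine walk_c hle hlt' hnot hnot' (fun e he => h1 _ (haA q) e (hEΘ e he)) ?_
    intro e he1 he2 he3 he4 he5
    by_contra hcon
    have h3 := hΘ2 hcardE e he3 he4 he5 hcon
    have h4 := h2 (a q) (haA q) e h3
    omega
  · refine (walk_c hle hlt hnot' hnot (fun e he => (h1 _ (haA q) e (hEΘ e he)).symm) ?_).symm
    intro e he1 he2 he3 he4 he5
    by_contra hcon
    have h3 := hΘ2 hcardE e he3 he4 he5 hcon
    have h4 := h2 (a q) (haA q) e h3
    omega

/-! ### counting -/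

theorem one_switch (Q P : ℕ → Prop) (hP : ∀ z z', z ≤ z' → Q z → Q z' → P z → P z')
    (S : Finset ℕ) (hS : ∀ z ∈ S, Q z ∧ Q (z + 1) ∧ ¬ (P z ↔ P (z + 1))) : S.card ≤ 1 := by
  rw [card_le_one]
  have key : ∀ z, Q z → Q (z + 1) → ¬ (P z ↔ P (z + 1)) → ¬ P z ∧ P (z + 1) := by
    intro z h1 h2 h3
    have h4 := hP z (z + 1) (Nat.le_succ z) h1 h2
    tauto
  intro z hz z' hz'
  obtain ⟨a1, a2, a3⟩ := hS z hz
  obtain ⟨b1, b2, b3⟩ := hS z' hz'
  obtain ⟨c1, c2⟩ := key z a1 a2 a3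
  obtain ⟨d1, d2⟩ := key z' b1 b2 b3
  rcases lt_trichotomy z z' with h | h | h
  · exact absurd (hP (z + 1) z' h a2 b1 c2) d1
  · exact h
  · exact absurd (hP (z' + 1) z h b2 a1 d2) c1

theorem one_switch' (Q P : ℕ → Prop) (hP : ∀ z z', z ≤ z' → Q z → Q z' → P z' → P z)
    (S : Finset ℕ) (hS : ∀ z ∈ S, Q z ∧ Q (z + 1) ∧ ¬ (P z ↔ P (z + 1))) : S.card ≤ 1 := by
  refine one_switch Q (fun z => ¬ P z) (fun z z' h1 h2 h3 h4 h5 => h4 (hP z z' h1 h2 h3 h5)) S ?_
  intro z hz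
  obtain ⟨h1, h2, h3⟩ := hS z hz
  refine ⟨h1, h2, fun h4 => h3 ?_⟩
  tauto

theorem hh_anti {a z z' : ℕ} (h : z ≤ z') (h' : z' < a) : hh z' a ≤ hh z a := by
  rcases h.lt_or_eq with h1 | h1
  · rw [hh_lt h', hh_lt (h1.trans h'), hd_max h1 h']
    exact le_max_right _ _
  · rw [h1]

theorem hh_mono {a z z' : ℕ} (h : z ≤ z') (h' : a < z) : hh z a ≤ hh z' a := by
  rcases h.lt_or_eq with h1 | h1
  · rw [hh_gt h', hh_gt (h'.trans h1), hd_max h' h1]
    exact le_max_left _ _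
  · rw [h1]

theorem changes_step {κ κ' : Type} {c : Finset ℕ → κ} {c' : Finset ℕ → κ'} {R N T : ℕ}
    (hS : Steps c c' R N) (hT : ∀ E ⊆ range N, E.card = R → allChanges N c E ≤ T)
    {A : Finset ℕ} (hA : A ⊆ range (2 ^ N)) (hc : A.card = R + 1) :
    allChanges (2 ^ N) c' A ≤ 4 * (R + 1) * ((R + 1) ^ 2 + T) := by
  classical
  set E := (univ : Finset (Fin R)).image (D (srt (R + 1) A)) with hE
  set Cs : Finset ℕ := if E.card = R then ((range N).filter (fun z =>
    (z + 1 < N ∧ z ∉ E ∧ z + 1 ∉ E) ∧ c (insert z E) ≠ c (insert (z + 1) E))) else ∅ with hCs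
  set Θ : Finset ℕ := (A ×ˢ A).image (fun p => hh p.1 p.2) ∪ Cs with hΘ
  have hEN : E ⊆ range N := by
    intro w hw
    obtain ⟨k, -, rfl⟩ := mem_image.1 hw
    rcases R with _ | R
    · exact k.elim0
    · have hm := srt_mono hc
      have him := srt_image hc
      rw [mem_range]
      refine hd_lt (hm (Fin.castSucc_lt_succ)) ?_
      have h5 := mem_image_of_mem (srt (R + 1 + 1) A) (mem_univ k.succ)
      rw [him] at h5
      exact mem_range.1 (hA h5)
  have hCsc : Cs.card ≤ T := by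
    rw [hCs]
    split_ifs with h
    · exact hT E hEN h
    · simp
  have hΘc : Θ.card ≤ (R + 1) ^ 2 + T := by
    rw [hΘ]
    refine (card_union_le _ _).trans (Nat.add_le_add (card_image_le.trans ?_) hCsc)
    rw [card_product, hc, sq]
  have hΘ1 : ∀ a ∈ A, ∀ b ∈ A, hh a b ∈ Θ := by
    intro a ha b hb
    rw [hΘ, mem_union]
    left
    exact mem_image.2 ⟨(a, b), mem_product.2 ⟨ha, hb⟩, rfl⟩
  have hΘ2 : E.card = R → ∀ e, e + 1 < N → e ∉ E → e + 1 ∉ E →
      c (insert e E) ≠ c (insert (e + 1) E) → e ∈ Θ := by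
    intro h1 e h2 h3 h4 h5
    rw [hΘ, mem_union]
    right
    rw [hCs, if_pos h1, mem_filter, mem_range]
    exact ⟨by omega, ⟨h2, h3, h4⟩, h5⟩
  set M := 2 ^ N with hM
  set S1 : ℕ × ℕ → Finset ℕ := fun p => (range M).filter (fun z => z < p.1 ∧ z + 1 < p.1 ∧
    ¬ (hh z p.1 < p.2 ↔ hh (z + 1) p.1 < p.2)) with hS1
  set S2 : ℕ × ℕ → Finset ℕ := fun p => (range M).filter (fun z => z < p.1 ∧ z + 1 < p.1 ∧
    ¬ (p.2 < hh z p.1 ↔ p.2 < hh (z + 1) p.1)) with hS2
  set S3 : ℕ × ℕ → Finset ℕ := fun p => (range M).filter (fun z => p.1 < z ∧ p.1 < z + 1 ∧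
    ¬ (hh z p.1 < p.2 ↔ hh (z + 1) p.1 < p.2)) with hS3
  set S4 : ℕ × ℕ → Finset ℕ := fun p => (range M).filter (fun z => p.1 < z ∧ p.1 < z + 1 ∧
    ¬ (p.2 < hh z p.1 ↔ p.2 < hh (z + 1) p.1)) with hS4
  have b1 : ∀ p, (S1 p).card ≤ 1 := fun p =>
    one_switch (fun z => z < p.1) (fun z => hh z p.1 < p.2)
      (fun z z' h1 _ h3 h4 => (hh_anti h1 h3).trans_lt h4) _ (fun z hz => (mem_filter.1 hz).2)
  have b2 : ∀ p, (S2 p).card ≤ 1 := fun p =>
    one_switch' (fun z => z < p.1) (fun z => p.2 < hh z p.1)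
      (fun z z' h1 _ h3 h4 => h4.trans_le (hh_anti h1 h3)) _ (fun z hz => (mem_filter.1 hz).2)
  have b3 : ∀ p, (S3 p).card ≤ 1 := fun p =>
    one_switch' (fun z => p.1 < z) (fun z => hh z p.1 < p.2)
      (fun z z' h1 h2 _ h4 => (hh_mono h1 h2).trans_lt h4) _ (fun z hz => (mem_filter.1 hz).2)
  have b4 : ∀ p, (S4 p).card ≤ 1 := fun p =>
    one_switch (fun z => p.1 < z) (fun z => p.2 < hh z p.1)
      (fun z z' h1 h2 _ h4 => h4.trans_le (hh_mono h1 h2)) _ (fun z hz => (mem_filter.1 hz).2)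
  have hsub : (range M).filter (fun z => (z + 1 < M ∧ z ∉ A ∧ z + 1 ∉ A) ∧
      c' (insert z A) ≠ c' (insert (z + 1) A)) ⊆
      (A ×ˢ Θ).biUnion (fun p => (S1 p ∪ S2 p) ∪ (S3 p ∪ S4 p)) := by
    intro z hz
    obtain ⟨hzM, ⟨h1, h2, h3⟩, h4⟩ := mem_filter.1 hz
    by_contra hcon
    apply h4
    have hne : ∀ a ∈ A, (a < z ↔ a < z + 1) := by
      intro a ha
      have h5 : a ≠ z := fun h => h2 (h ▸ ha)
      omega
    have hne' : ∀ a ∈ A, (z < a ∧ z + 1 < a) ∨ (a < z ∧ a < z + 1) := by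
      intro a ha
      have h5 : a ≠ z := fun h => h2 (h ▸ ha)
      have h6 : a ≠ z + 1 := fun h => h3 (h ▸ ha)
      omega
    have hnot : ∀ a ∈ A, ∀ θ ∈ Θ, z ∉ (S1 (a, θ) ∪ S2 (a, θ)) ∪ (S3 (a, θ) ∪ S4 (a, θ)) := by
      intro a ha θ hθ hmem
      exact hcon (mem_biUnion.2 ⟨(a, θ), mem_product.2 ⟨ha, hθ⟩, hmem⟩)
    refine same_colour hS hA hc Θ hΘ1 hΘ2 (mem_range.1 hzM) h1 h2 h3 hne ?_ ?_
    · intro a ha θ hθ
      by_contra h5
      apply hnot a ha θ hθ
      rcases hne' a ha with ⟨h6, h7⟩ | ⟨h6, h7⟩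
      · exact mem_union_left _ (mem_union_left _ (mem_filter.2 ⟨hzM, h6, h7, h5⟩))
      · exact mem_union_right _ (mem_union_left _ (mem_filter.2 ⟨hzM, h6, h7, h5⟩))
    · intro a ha θ hθ
      by_contra h5
      apply hnot a ha θ hθ
      rcases hne' a ha with ⟨h6, h7⟩ | ⟨h6, h7⟩
      · exact mem_union_left _ (mem_union_right _ (mem_filter.2 ⟨hzM, h6, h7, h5⟩))
      · exact mem_union_right _ (mem_union_right _ (mem_filter.2 ⟨hzM, h6, h7, h5⟩))
  have h0 : allChanges M c' A = ((range M).filter (fun z => (z + 1 < M ∧ z ∉ A ∧ z + 1 ∉ A) ∧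
      c' (insert z A) ≠ c' (insert (z + 1) A))).card := rfl
  rw [h0]
  refine (card_le_card hsub).trans (card_biUnion_le.trans ?_)
  calc ∑ p ∈ A ×ˢ Θ, ((S1 p ∪ S2 p) ∪ (S3 p ∪ S4 p)).card ≤ ∑ _p ∈ A ×ˢ Θ, 4 := by
        refine sum_le_sum (fun p _ => ?_)
        have g1 := card_union_le (S1 p ∪ S2 p) (S3 p ∪ S4 p)
        have g2 := card_union_le (S1 p) (S2 p)
        have g3 := card_union_le (S3 p) (S4 p)
        have := b1 p
        have := b2 p
        have := b3 p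
        have := b4 p
        omega
    _ = (R + 1) * Θ.card * 4 := by rw [sum_const, card_product, hc, smul_eq_mul]
    _ ≤ (R + 1) * ((R + 1) ^ 2 + T) * 4 := by gcongr
    _ = _ := by ring

theorem allChanges_le {κ : Type} (N : ℕ) (c : Finset ℕ → κ) (A : Finset ℕ) :
    allChanges N c A ≤ N := by
  classical
  unfold allChanges
  refine (card_le_card (filter_subset _ _)).trans ?_
  rw [card_range]

theorem towerC (s : ℕ) : ∃ K : ℕ, 1 ≤ K ∧ ∀ (M k : ℕ) (G : SimpleGraph (Fin M)), 1 ≤ M →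
    2 ≤ k → G.CliqueFree k → Gᶜ.CliqueFree k →
    ∃ P : Protocol (Bool × Bool) (s + 2),
      (∃ n, 2 ≤ n ∧ n ≤ 2 ^ s * (k + 1 + s) ∧ ∀ S ⊆ range (NN M s), S.card = n → ¬ Pool.Agent.TH138.NF.Hom P S) ∧
      ∀ B ⊆ range (NN M s), B.card = s + 2 →
        allChanges (NN M s) (colour P (false, false)) B ≤ K * M := by
  induction s with
  | zero =>
    refine ⟨40, by norm_num, ?_⟩
    intro M k G hM hk h1 h2
    refine ⟨Pool.Agent.TH138.NF.base (adjN G) M, ⟨k + 1, by omega, by omega, ?_⟩, ?_⟩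
    · exact base_hom (adjN G) M M k Nat.lt_two_pow_self.le hk (graph_hom G h1 h2)
    · intro B hB hBc
      have h3 := changes_step (steps_base G (j := M) Nat.lt_two_pow_self.le) (T := M)
        (fun E _ _ => allChanges_le M _ E) hB hBc
      refine h3.trans ?_
      norm_num
      nlinarith
  | succ s ih =>
    obtain ⟨K, hK, ih⟩ := ih
    refine ⟨4 * (s + 3) * ((s + 3) ^ 2 + K), Nat.succ_le_of_lt (by positivity), ?_⟩
    intro M k G hM hk h1 h2
    obtain ⟨P, ⟨n, hn2, hn, hP⟩, hT⟩ := ih M k G hM hk h1 h2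
    refine ⟨P.step, ⟨2 * n + s, by omega, ?_, step_lower P (NN M s) n hn2 hP⟩, ?_⟩
    · have h1 : s ≤ 2 ^ s := Nat.lt_two_pow_self.le
      calc 2 * n + s ≤ 2 * (2 ^ s * (k + 1 + s)) + 2 ^ s := by omega
        _ ≤ 2 ^ (s + 1) * (k + 1 + (s + 1)) := by
          rw [pow_succ]
          nlinarith
    · intro B hB hBc
      have h3 := changes_step (steps_step P (NN M s)) (T := K * M)
        (fun E hE hEc => hT E hE hEc) hB hBc
      refine h3.trans ?_
      have h4 : (s + 3) ^ 2 + K * M ≤ ((s + 3) ^ 2 + K) * M := by nlinarith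
      calc 4 * (s + 2 + 1) * ((s + 2 + 1) ^ 2 + K * M) ≤
            4 * (s + 2 + 1) * (((s + 3) ^ 2 + K) * M) := Nat.mul_le_mul_left _ h4
        _ = 4 * (s + 3) * ((s + 3) ^ 2 + K) * M := by ring

/-- **Four colours.** -/
theorem sharp (s : ℕ) : ∃ C : ℕ, 1 ≤ C ∧ ∀ n : ℕ, C ≤ n →
    ∃ (N : ℕ) (c : Finset ℕ → Bool × Bool), tow (s + 2) (1 / C * n) ≤ N ∧
      (∀ H ⊆ range N, H.card = n → ¬ Homogeneous (s + 3) c H) ∧
      ∀ A ⊆ range N, A.card = s + 2 → allChanges N c A ≤ 2 ^ n := by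
  obtain ⟨K, hK, htower⟩ := towerC s
  refine ⟨2 ^ s * (s + 8) + 2 * K, Nat.succ_le_of_lt (by positivity), ?_⟩
  intro n hn
  set q := n / 2 ^ s with hq
  set m := (q - 3 - s) / 2 with hm
  have hp : 0 < 2 ^ s := by positivity
  have hq1 : s + 8 ≤ q := by
    rw [hq, Nat.le_div_iff_mul_le hp, mul_comm]
    omega
  have hqn : 2 ^ s * q ≤ n := Nat.mul_div_le n (2 ^ s)
  have hqn' : n < 2 ^ s * (q + 1) := by
    rw [hq, mul_add, mul_one]
    have h1 := Nat.div_add_mod n (2 ^ s)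
    have h2 := Nat.mod_lt n hp
    omega
  have hqn2 : q ≤ n := Nat.div_le_self _ _
  have hm1 : 1 ≤ m := by omega
  obtain ⟨G, h1, h2⟩ := Pool.Agent.Y422.TW.erdos m hm1
  obtain ⟨P, ⟨n', hn2, hn', hP⟩, hT⟩ := htower (2 ^ m) (2 * m + 2) G Nat.one_le_two_pow
    (by omega) h1 h2
  have hn'n : n' ≤ n := by
    refine hn'.trans (le_trans ?_ hqn)
    apply Nat.mul_le_mul_left
    omega
  refine ⟨NN (2 ^ m) s, colour P (false, false), ?_, ?_, ?_⟩
  · have e : ((2 ^ m : ℕ) : ℝ) = (2 : ℝ) ^ (m : ℝ) := by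
      push_cast
      rw [Real.rpow_natCast]
    rw [NN_tow, e, ← tow_two]
    push_cast
    apply tow_mono
    have h3 : n ≤ (2 ^ s * (s + 8) + 2 * K) * m := by
      have h4 : q + 1 ≤ (s + 8) * m := by nlinarith [show q ≤ 2 * m + 4 + s by omega]
      calc n ≤ 2 ^ s * (q + 1) := hqn'.le
        _ ≤ 2 ^ s * ((s + 8) * m) := Nat.mul_le_mul_left _ h4
        _ ≤ (2 ^ s * (s + 8) + 2 * K) * m := by nlinarith
    have h5 : (n : ℝ) ≤ ((2 : ℝ) ^ s * (s + 8) + 2 * K) * m := by exact_mod_cast h3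
    rw [one_div, inv_mul_le_iff₀ (by positivity)]
    exact h5
  · intro H hH hc hh
    obtain ⟨T, hTH, hTc⟩ := exists_subset_card_eq (s := H) (n := n') (by omega)
    refine hP T (hTH.trans hH) hTc (hom_of_homogeneous
      (computes_colour P (false, false) (NN (2 ^ m) s)) (hTH.trans hH) ?_)
    intro A hA B hB
    exact hh A (hA.trans hTH) B (hB.trans hTH)
  · intro A hA hAc
    refine (hT A hA hAc).trans ?_
    have h3 : 2 * K ≤ n := by omega
    have h4 : K ≤ 2 ^ K := Nat.lt_two_pow_self.le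
    calc K * 2 ^ m ≤ 2 ^ K * 2 ^ m := Nat.mul_le_mul_right _ h4
      _ = 2 ^ (K + m) := by rw [pow_add]
      _ ≤ 2 ^ n := Nat.pow_le_pow_right (by norm_num) (by omega)

end Pool.Agent.Q274.IV
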